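import Pool.Agent.Q174.CD.Mom

/-!
# Blocks: first and second region estimates, and greedy covering (helper file)
-/

open MeasureTheory Set

namespace Pool.Agent.Q174.CD

/-- region covered by the block `θ = (w, x0, y0)` at scale `k` -/
def Cv (n : ℕ) (k : ℝ) (θ : Om n × ℝ × ℝ) : Set (ℝ × ℝ) :=
  {z | 0 < NN n θ.1 (9 * (z.1 - θ.2.1)) ((z.2 - θ.2.2) / k)}

lemma Cv_meas (n : ℕ) (k : ℝ) (θ : Om n × ℝ × ℝ) : MeasurableSet (Cv n k θ) := by
  have hm : Measurable (fun z : ℝ × ℝ => (9 * (z.1 - θ.2.1), (z.2 - θ.2.2) / k)) := by fun_prop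
  exact measurableSet_lt measurable_const ((NN_meas n θ.1).comp hm)

/-- the window of the single segments -/
def X1S : Set (ℝ × ℝ) := Icc (1/2) (3/2) ×ˢ univ

lemma X1S_meas : MeasurableSet X1S := measurableSet_Icc.prod MeasurableSet.univ

lemma vol_Cv (n : ℕ) (k : ℝ) (θ : Om n × ℝ × ℝ) (U : Set (ℝ × ℝ)) :
    volume (Cv n k θ ∩ U)
      = ∫⁻ z in U, ENNReal.ofReal (pos1 (NN n θ.1 (9 * (z.1 - θ.2.1)) ((z.2 - θ.2.2) / k))) := by
  have h1 : ∀ z : ℝ × ℝ, ENNReal.ofReal (pos1 (NN n θ.1 (9 * (z.1 - θ.2.1)) ((z.2 - θ.2.2) / k)))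
      = (Cv n k θ).indicator 1 z := by
    intro z
    unfold pos1 Set.indicator Cv
    simp only [Set.mem_ofPred_eq, Pi.one_apply]
    split_ifs <;> simp
  simp only [h1]
  rw [lintegral_indicator_one (Cv_meas n k θ), Measure.restrict_apply (Cv_meas n k θ)]

lemma sum_pos1 (n : ℕ) (X u : ℝ) : ∑ w : Om n, ENNReal.ofReal (pos1 (NN n w X u))
    = ENNReal.ofReal (Fintype.card (Om n) * pp n X u) := by
  rw [← ENNReal.ofReal_sum_of_nonneg (fun w _ => pos1_nonneg _)]
  congr 1
  unfold pp av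
  have h : (Fintype.card (Om n) : ℝ) ≠ 0 := by exact_mod_cast Fintype.card_ne_zero
  rw [mul_div_cancel₀ _ h]

lemma pp_comp {X : ℝ} (hX : 0 ≤ X) (n : ℕ) {k : ℝ} (hk : 0 < k) (y : ℝ) :
    Integrable (fun y0 => pp n X ((y - y0) / k)) ∧
      ∫ y0, pp n X ((y - y0) / k) = k * ∫ u, pp n X u := by
  have h1 : Integrable (fun t => pp n X (t / k)) := (pp_int hX n).comp_div hk.ne'
  refine ⟨h1.comp_sub_left y, ?_⟩
  rw [integral_sub_left_eq_self (fun t => pp n X (t / k)), Measure.integral_comp_div,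
    abs_of_pos hk, smul_eq_mul]

lemma pp_comp' {X : ℝ} (hX : 0 ≤ X) (n : ℕ) {k : ℝ} (hk : 0 < k) (y0 : ℝ) :
    Integrable (fun y => pp n X ((y - y0) / k)) ∧
      ∫ y, pp n X ((y - y0) / k) = k * ∫ u, pp n X u := by
  have h1 : Integrable (fun t => pp n X (t / k)) := (pp_int hX n).comp_div hk.ne'
  refine ⟨h1.comp_sub_right y0, ?_⟩
  rw [integral_sub_right_eq_self (fun t => pp n X (t / k)), Measure.integral_comp_div,
    abs_of_pos hk, smul_eq_mul]

lemma pp_int_le {X : ℝ} (hX : 1 ≤ X) (hX2 : X ≤ 13) {n : ℕ} (hn : 0 < n) :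
    ∫ u, pp n X u ≤ 1764 / n := by
  have hn' : (0:ℝ) < n := by exact_mod_cast hn
  have hS := SS_int (L := 1 + X) (by linarith)
  have h1 : ∀ u, pp n X u ≤ (126 / n) * SS (1 + X) u := by
    intro u
    unfold SS
    split_ifs with h
    · have := pp_bound hX hX2 n u
      rw [mul_one, le_div_iff₀ hn']
      linarith
    · rw [not_and_or, not_le, not_lt] at h
      rw [pp_zero (by linarith) n u h]; simp
  have h2 := integral_mono (pp_int (by linarith) n) (hS.1.const_mul (126 / (n:ℝ))) h1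
  rw [integral_const_mul, hS.2] at h2
  refine h2.trans ?_
  rw [div_mul_eq_mul_div]
  gcongr
  linarith

/-- upper bound for the total size of the single window of a random block -/
lemma sum_single_le {n : ℕ} (hn : 0 < n) {k : ℝ} (hk : 0 < k) {x0 : ℝ} (hx0 : x0 ∈ Icc (1/8:ℝ) (3/8))
    (y0 : ℝ) : ∑ w : Om n, volume (Cv n k (w, x0, y0) ∩ X1S)
      ≤ ENNReal.ofReal (Fintype.card (Om n) * (k * (1764 / n))) := by
  have hc : (0:ℝ) ≤ Fintype.card (Om n) := Nat.cast_nonneg _
  have hm : Measurable (fun z : ℝ × ℝ => (9 * (z.1 - x0), (z.2 - y0) / k)) := by fun_prop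
  calc ∑ w : Om n, volume (Cv n k (w, x0, y0) ∩ X1S)
      = ∑ w : Om n, ∫⁻ z in X1S, ENNReal.ofReal
          (pos1 (NN n w (9 * (z.1 - x0)) ((z.2 - y0) / k))) := by
        refine Finset.sum_congr rfl fun w _ => vol_Cv n k (w, x0, y0) X1S
    _ = ∫⁻ z in X1S, ∑ w : Om n, ENNReal.ofReal
          (pos1 (NN n w (9 * (z.1 - x0)) ((z.2 - y0) / k))) := by
        rw [lintegral_finsetSum]
        intro w _
        exact ENNReal.measurable_ofReal.comp (pos1_meas.comp ((NN_meas n w).comp hm))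
    _ = ∫⁻ z in X1S, ENNReal.ofReal
          (Fintype.card (Om n) * pp n (9 * (z.1 - x0)) ((z.2 - y0) / k)) := by
        simp only [sum_pos1]
    _ = ∫⁻ x in Icc (1/2:ℝ) (3/2), ∫⁻ y, ENNReal.ofReal
          (Fintype.card (Om n) * pp n (9 * (x - x0)) ((y - y0) / k)) := by
        unfold X1S
        rw [Measure.volume_eq_prod, ← Measure.prod_restrict, lintegral_prod]
        · simp only [Measure.restrict_univ]
        · have := (pp_meas n).comp hm
          exact (ENNReal.measurable_ofReal.comp (measurable_const.mul this)).aemeasurable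
    _ ≤ ∫⁻ x in Icc (1/2:ℝ) (3/2), ENNReal.ofReal (Fintype.card (Om n) * (k * (1764 / n))) := by
        refine setLIntegral_mono measurable_const fun x hx => ?_
        have hX1 : 1 ≤ 9 * (x - x0) := by linarith [hx.1, hx0.2]
        have hX2 : 9 * (x - x0) ≤ 13 := by linarith [hx.2, hx0.1]
        have h1 := pp_comp' (X := 9 * (x - x0)) (by linarith) n hk y0
        rw [← ofReal_integral_eq_lintegral_ofReal (h1.1.const_mul _)
          (Filter.Eventually.of_forall fun y => mul_nonneg hc (pp_nonneg _ _ _)),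
          integral_const_mul, h1.2]
        apply ENNReal.ofReal_le_ofReal
        have := pp_int_le hX1 hX2 hn
        gcongr
    _ = ENNReal.ofReal (Fintype.card (Om n) * (k * (1764 / n))) := by
        rw [setLIntegral_const, Real.volume_Icc]
        norm_num

/-- integral in the horizontal position of the apex -/
lemma log_integral {n : ℕ} (hn : 0 < n) (x : ℝ) :
    ∫⁻ t in Icc (x - 1/8) x, ENNReal.ofReal (1 / (1 + 54 * n * (x - t)))
      = ENNReal.ofReal (Real.log (1 + 27/4 * n) / (54 * n)) := by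
  have hn' : (0:ℝ) < n := by exact_mod_cast hn
  have hpos : ∀ t ∈ Icc (x - 1/8) x, 0 < 1 + 54 * (n:ℝ) * (x - t) := by
    intro t ht
    have : 0 ≤ 54 * (n:ℝ) * (x - t) := mul_nonneg (by positivity) (by linarith [ht.2])
    linarith
  have hcont : ContinuousOn (fun t => 1 / (1 + 54 * (n:ℝ) * (x - t))) (Icc (x - 1/8) x) := by
    refine ContinuousOn.div continuousOn_const (by fun_prop) fun t ht => (hpos t ht).ne'
  rw [← ofReal_integral_eq_lintegral_ofReal (hcont.integrableOn_Icc)
    ((ae_restrict_iff' measurableSet_Icc).mpr (Filter.Eventually.of_forall fun t ht =>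
      (one_div_pos.mpr (hpos t ht)).le))]
  congr 1
  rw [integral_Icc_eq_integral_Ioc, ← intervalIntegral.integral_of_le (by linarith)]
  have hderiv : ∀ t ∈ uIcc (x - 1/8) x, HasDerivAt
      (fun t => -(1 / (54 * (n:ℝ))) * Real.log (1 + 54 * (n:ℝ) * (x - t)))
      (1 / (1 + 54 * (n:ℝ) * (x - t))) t := by
    intro t ht
    rw [uIcc_of_le (by linarith)] at ht
    have h1 : HasDerivAt (fun t => 1 + 54 * (n:ℝ) * (x - t)) (-(54 * (n:ℝ))) t := by
      have := (((hasDerivAt_id t).const_sub x).const_mul (54 * (n:ℝ))).const_add 1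
      exact this.congr_deriv (by ring)
    have h2 := (h1.log (hpos t ht).ne').const_mul (-(1 / (54 * (n:ℝ))))
    refine h2.congr_deriv ?_
    have := (hpos t ht).ne'
    field_simp
  rw [intervalIntegral.integral_eq_sub_of_hasDerivAt hderiv]
  · have e1 : 1 + 54 * (n:ℝ) * (x - x) = 1 := by ring
    have e2 : 1 + 54 * (n:ℝ) * (x - (x - 1/8)) = 1 + 27/4 * n := by ring
    rw [e1, e2, Real.log_one]
    ring
  · rw [intervalIntegrable_iff_integrableOn_Ioc_of_le (by linarith)]
    exact (hcont.integrableOn_Icc).mono_set Ioc_subset_Icc_self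

/-- lower bound for the probability that a random block covers a point of the double window -/
lemma cover_ge {n : ℕ} (hn : 0 < n) {k : ℝ} (hk : 0 < k) {x y : ℝ} (hx : x ∈ Icc (1/4:ℝ) (3/8))
    (hy : y ∈ Icc (18 * k) (1 - 9 * k)) :
    ENNReal.ofReal (k * (Real.log (1 + 27/4 * n) / (54 * n))) ≤
      ∫⁻ x0 in Icc (1/8:ℝ) (3/8), ∫⁻ y0 in Icc (9 * k) (1 - 9 * k),
        ENNReal.ofReal (pp n (9 * (x - x0)) ((y - y0) / k)) := by
  have hn' : (0:ℝ) < n := by exact_mod_cast hn
  have hsub : Icc (x - 1/8) x ⊆ Icc (1/8:ℝ) (3/8) := fun t ht =>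
    ⟨by linarith [ht.1, hx.1], by linarith [ht.2, hx.2]⟩
  calc ENNReal.ofReal (k * (Real.log (1 + 27/4 * n) / (54 * n)))
      = ENNReal.ofReal k * ∫⁻ t in Icc (x - 1/8) x, ENNReal.ofReal (1 / (1 + 54 * n * (x - t))) := by
        rw [log_integral hn, ENNReal.ofReal_mul hk.le]
    _ = ∫⁻ t in Icc (x - 1/8) x, ENNReal.ofReal k * ENNReal.ofReal (1 / (1 + 54 * n * (x - t))) := by
        rw [lintegral_const_mul' _ _ ENNReal.ofReal_ne_top]
    _ ≤ ∫⁻ x0 in Icc (x - 1/8) x, ∫⁻ y0 in Icc (9 * k) (1 - 9 * k),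
        ENNReal.ofReal (pp n (9 * (x - x0)) ((y - y0) / k)) := by
        refine setLIntegral_mono' measurableSet_Icc fun t ht => ?_
        have hX0 : 0 ≤ 9 * (x - t) := by linarith [ht.2]
        have hX1 : 9 * (x - t) ≤ 9/8 := by linarith [ht.1]
        have h1 := pp_comp hX0 n hk y
        have hzero : ∀ y0 ∉ Icc (9 * k) (1 - 9 * k),
            ENNReal.ofReal (pp n (9 * (x - t)) ((y - y0) / k)) = 0 := by
          intro y0 hy0
          rw [pp_zero hX0, ENNReal.ofReal_zero]
          rw [mem_Icc, not_and_or, not_le, not_le] at hy0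
          rcases hy0 with h | h
          · right
            rw [le_div_iff₀ hk]
            nlinarith [hy.1]
          · left
            exact div_neg_of_neg_of_pos (by linarith [hy.2]) hk
        have h2 : ∫⁻ y0 in Icc (9 * k) (1 - 9 * k),
            ENNReal.ofReal (pp n (9 * (x - t)) ((y - y0) / k))
            = ∫⁻ y0, ENNReal.ofReal (pp n (9 * (x - t)) ((y - y0) / k)) := by
          rw [← lintegral_indicator measurableSet_Icc]
          congr 1
          funext y0
          by_cases h : y0 ∈ Icc (9 * k) (1 - 9 * k)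
          · rw [indicator_of_mem h]
          · rw [indicator_of_notMem h, hzero y0 h]
        rw [h2, ← ofReal_integral_eq_lintegral_ofReal h1.1
          (Filter.Eventually.of_forall fun y0 => pp_nonneg _ _ _), h1.2, ← ENNReal.ofReal_mul hk.le]
        apply ENNReal.ofReal_le_ofReal
        have h3 := pp_int_ge hX0 n
        have : 1 + 6 * (n:ℝ) * (9 * (x - t)) = 1 + 54 * n * (x - t) := by ring
        rw [this] at h3
        gcongr
    _ ≤ _ := lintegral_mono_set hsub

/-- the target of the covering -/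
def GS (k : ℝ) : Set (ℝ × ℝ) := Icc (1/4) (3/8) ×ˢ Icc (18 * k) (1 - 9 * k)

lemma GS_meas (k : ℝ) : MeasurableSet (GS k) := measurableSet_Icc.prod measurableSet_Icc

/-- apex domain -/
def AD (k : ℝ) : Set (ℝ × ℝ) := Icc (1/8) (3/8) ×ˢ Icc (9 * k) (1 - 9 * k)

lemma AD_meas (k : ℝ) : MeasurableSet (AD k) := measurableSet_Icc.prod measurableSet_Icc

lemma AD_vol {k : ℝ} (hk : 0 < k) : volume (AD k) ≤ ENNReal.ofReal (1/4) := by
  unfold AD
  rw [Measure.volume_eq_prod, Measure.prod_prod, Real.volume_Icc, Real.volume_Icc,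
    ← ENNReal.ofReal_mul (by norm_num)]
  apply ENNReal.ofReal_le_ofReal
  nlinarith

/-- total covering of a subset of the target by random blocks -/
lemma sum_cover_ge {n : ℕ} (hn : 0 < n) {k : ℝ} (hk : 0 < k) {U : Set (ℝ × ℝ)}
    (hUm : MeasurableSet U) (hU : U ⊆ GS k) :
    ENNReal.ofReal (Fintype.card (Om n) * (k * (Real.log (1 + 27/4 * n) / (54 * n)))) * volume U ≤
      ∫⁻ θ in AD k, ∑ w : Om n, volume (Cv n k (w, θ.1, θ.2) ∩ U) := by
  have hc : (0:ℝ) ≤ Fintype.card (Om n) := Nat.cast_nonneg _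
  have hm : Measurable (fun q : (ℝ × ℝ) × (ℝ × ℝ) => (9 * (q.2.1 - q.1.1), (q.2.2 - q.1.2) / k)) := by
    fun_prop
  have hm1 : Measurable (fun q : (ℝ × ℝ) × (ℝ × ℝ) => ENNReal.ofReal
      (Fintype.card (Om n) * pp n (9 * (q.2.1 - q.1.1)) ((q.2.2 - q.1.2) / k))) :=
    ENNReal.measurable_ofReal.comp (measurable_const.mul ((pp_meas n).comp hm))
  calc ENNReal.ofReal (Fintype.card (Om n) * (k * (Real.log (1 + 27/4 * n) / (54 * n)))) * volume U
      = ∫⁻ _z in U, ENNReal.ofReal
          (Fintype.card (Om n) * (k * (Real.log (1 + 27/4 * n) / (54 * n)))) := by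
        rw [setLIntegral_const]
    _ ≤ ∫⁻ z in U, ∫⁻ θ in AD k, ENNReal.ofReal
          (Fintype.card (Om n) * pp n (9 * (z.1 - θ.1)) ((z.2 - θ.2) / k)) := by
        refine setLIntegral_mono' hUm fun z hz => ?_
        have hz' := hU hz
        have h1 := cover_ge hn hk hz'.1 hz'.2
        rw [ENNReal.ofReal_mul hc]
        have h2 : ∫⁻ θ in AD k, ENNReal.ofReal
          (Fintype.card (Om n) * pp n (9 * (z.1 - θ.1)) ((z.2 - θ.2) / k))
          = ENNReal.ofReal (Fintype.card (Om n)) * ∫⁻ x0 in Icc (1/8:ℝ) (3/8),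
            ∫⁻ y0 in Icc (9 * k) (1 - 9 * k),
              ENNReal.ofReal (pp n (9 * (z.1 - x0)) ((z.2 - y0) / k)) := by
          have hm2 : Measurable (fun θ : ℝ × ℝ => (9 * (z.1 - θ.1), (z.2 - θ.2) / k)) := by
            fun_prop
          have hm3 : Measurable (fun θ : ℝ × ℝ => ENNReal.ofReal
              (pp n (9 * (z.1 - θ.1)) ((z.2 - θ.2) / k))) :=
            ENNReal.measurable_ofReal.comp ((pp_meas n).comp hm2)
          simp only [ENNReal.ofReal_mul hc]
          rw [lintegral_const_mul _ hm3]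
          congr 1
          unfold AD
          rw [Measure.volume_eq_prod, ← Measure.prod_restrict, lintegral_prod _ hm3.aemeasurable]
        rw [h2]
        gcongr
    _ = ∫⁻ θ in AD k, ∫⁻ z in U, ENNReal.ofReal
          (Fintype.card (Om n) * pp n (9 * (z.1 - θ.1)) ((z.2 - θ.2) / k)) :=
        (lintegral_lintegral_swap (μ := volume.restrict (AD k)) (ν := volume.restrict U)
          (f := fun θ z => ENNReal.ofReal
          (Fintype.card (Om n) * pp n (9 * (z.1 - θ.1)) ((z.2 - θ.2) / k)))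
          hm1.aemeasurable).symm
    _ = ∫⁻ θ in AD k, ∑ w : Om n, volume (Cv n k (w, θ.1, θ.2) ∩ U) := by
        refine lintegral_congr fun θ => ?_
        have hm2 : Measurable (fun z : ℝ × ℝ => (9 * (z.1 - θ.1), (z.2 - θ.2) / k)) := by
          fun_prop
        simp only [vol_Cv]
        rw [← lintegral_finsetSum]
        · simp only [sum_pos1]
        · intro w _
          exact ENNReal.measurable_ofReal.comp (pos1_meas.comp ((NN_meas n w).comp hm2))

/-- existence of a good block -/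
lemma exists_block {n : ℕ} (hn : 0 < n) {k : ℝ} (hk : 0 < k) {U : Set (ℝ × ℝ)}
    (hUm : MeasurableSet U) (hU : U ⊆ GS k) {η : ℝ} (hη : 0 < η)
    (hV : ENNReal.ofReal η < volume U) :
    ∃ θ : Om n × ℝ × ℝ, θ.2 ∈ AD k ∧
      ENNReal.ofReal (η * Real.log (1 + 27/4 * n) / 47628) * volume (Cv n k θ ∩ X1S)
        + ENNReal.ofReal (η * k * Real.log (1 + 27/4 * n) / (54 * n)) ≤ volume (Cv n k θ ∩ U) := by
  by_contra hne
  push Not at hne
  have hn' : (0:ℝ) < n := by exact_mod_cast hn
  set L := Real.log (1 + 27/4 * n) with hL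
  have hLpos : 0 < L := Real.log_pos (by linarith)
  have hc0 : (0:ℝ) < Fintype.card (Om n) := by exact_mod_cast Fintype.card_pos
  set c : ℝ := (Fintype.card (Om n) : ℝ) with hcdef
  have hUfin : volume U < ⊤ := by
    refine (measure_mono hU).trans_lt ?_
    unfold GS
    rw [Measure.volume_eq_prod, Measure.prod_prod, Real.volume_Icc, Real.volume_Icc]
    exact ENNReal.mul_lt_top ENNReal.ofReal_lt_top ENNReal.ofReal_lt_top
  have h1 := sum_cover_ge hn hk hUm hU
  have h2 : ∫⁻ θ in AD k, ∑ w : Om n, volume (Cv n k (w, θ.1, θ.2) ∩ U) ≤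
      ∫⁻ θ in AD k, (ENNReal.ofReal (η * L / 47628) * ENNReal.ofReal (c * (k * (1764 / n)))
        + ENNReal.ofReal c * ENNReal.ofReal (η * k * L / (54 * n))) := by
    refine setLIntegral_mono measurable_const fun θ hθ => ?_
    calc ∑ w : Om n, volume (Cv n k (w, θ.1, θ.2) ∩ U)
        ≤ ∑ w : Om n, (ENNReal.ofReal (η * L / 47628) * volume (Cv n k (w, θ.1, θ.2) ∩ X1S)
          + ENNReal.ofReal (η * k * L / (54 * n))) :=
          Finset.sum_le_sum fun w _ => (hne (w, θ.1, θ.2) hθ).le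
      _ = ENNReal.ofReal (η * L / 47628) * (∑ w : Om n, volume (Cv n k (w, θ.1, θ.2) ∩ X1S))
          + ENNReal.ofReal c * ENNReal.ofReal (η * k * L / (54 * n)) := by
          rw [Finset.sum_add_distrib, Finset.mul_sum, Finset.sum_const, Finset.card_univ,
            nsmul_eq_mul, hcdef, ENNReal.ofReal_natCast]
      _ ≤ _ := by
          gcongr
          exact sum_single_le hn hk hθ.1 θ.2
  have h3 := h1.trans h2
  rw [setLIntegral_const] at h3
  have h4 : ENNReal.ofReal (c * (k * (L / (54 * n)))) * ENNReal.ofReal η ≤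
      ENNReal.ofReal (c * (k * (L / (54 * n)))) * volume U := by gcongr
  have h5 : (ENNReal.ofReal (η * L / 47628) * ENNReal.ofReal (c * (k * (1764 / n)))
        + ENNReal.ofReal c * ENNReal.ofReal (η * k * L / (54 * n))) * volume (AD k)
      ≤ (ENNReal.ofReal (η * L / 47628) * ENNReal.ofReal (c * (k * (1764 / n)))
        + ENNReal.ofReal c * ENNReal.ofReal (η * k * L / (54 * n))) * ENNReal.ofReal (1/4) := by
    gcongr
    exact AD_vol hk
  have h6 := (h4.trans h3).trans h5
  rw [← ENNReal.ofReal_mul (by positivity), ← ENNReal.ofReal_mul (by positivity),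
    ← ENNReal.ofReal_mul (by positivity), ← ENNReal.ofReal_add (by positivity) (by positivity),
    ← ENNReal.ofReal_mul (by positivity), ENNReal.ofReal_le_ofReal_iff (by positivity)] at h6
  have e1 : c * (k * (L / (54 * n))) * η = c * k * L * η / n * (1/54) := by field_simp
  have e2 : (η * L / 47628 * (c * (k * (1764 / n))) + c * (η * k * L / (54 * n))) * (1/4)
      = c * k * L * η / n * (1/72) := by field_simp; norm_num
  rw [e1, e2] at h6
  have : 0 < c * k * L * η / n := by positivity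
  linarith

/-- greedy covering -/
lemma greedy {n : ℕ} (hn : 0 < n) {k : ℝ} (hk : 0 < k) {η : ℝ} (hη : 0 < η) (N : ℕ) :
    ∃ s : Set (Om n × ℝ × ℝ), s.Finite ∧ (∀ θ ∈ s, θ.2 ∈ AD k) ∧
      ENNReal.ofReal (η * Real.log (1 + 27/4 * n) / 47628) * volume ((⋃ θ ∈ s, Cv n k θ) ∩ X1S)
        + volume (GS k \ ⋃ θ ∈ s, Cv n k θ) ≤ volume (GS k) ∧
      (volume (GS k \ ⋃ θ ∈ s, Cv n k θ) ≤ ENNReal.ofReal η ∨
        volume (GS k \ ⋃ θ ∈ s, Cv n k θ)
          + N * ENNReal.ofReal (η * k * Real.log (1 + 27/4 * n) / (54 * n)) ≤ volume (GS k)) := by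
  induction N with
  | zero =>
    refine ⟨∅, finite_empty, by simp, by simp, Or.inr (by simp)⟩
  | succ N ih =>
    obtain ⟨s, hsf, hs, h1, h2⟩ := ih
    by_cases hV : volume (GS k \ ⋃ θ ∈ s, Cv n k θ) ≤ ENNReal.ofReal η
    · exact ⟨s, hsf, hs, h1, Or.inl hV⟩
    have hmeas : MeasurableSet (⋃ θ ∈ s, Cv n k θ) :=
      MeasurableSet.biUnion hsf.countable fun θ _ => Cv_meas n k θ
    have h3 := h2.resolve_left hV
    push Not at hV
    obtain ⟨θ, hθ, hθ2⟩ := exists_block hn hk ((GS_meas k).diff hmeas) sdiff_subset hη hV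
    refine ⟨insert θ s, hsf.insert θ, ?_, ?_, Or.inr ?_⟩
    · rintro θ' (rfl | h)
      · exact hθ
      · exact hs θ' h
    · rw [biUnion_insert, union_inter_distrib_right]
      have e : GS k \ (Cv n k θ ∪ ⋃ x ∈ s, Cv n k x) = (GS k \ ⋃ x ∈ s, Cv n k x) \ Cv n k θ := by
        rw [union_comm, sdiff_sdiff]
      rw [e]
      set U := GS k \ ⋃ x ∈ s, Cv n k x with hU
      have h4 : volume (Cv n k θ ∩ U) + volume (U \ Cv n k θ) = volume U := by
        rw [inter_comm]; exact measure_inter_add_sdiff U (Cv_meas n k θ)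
      calc ENNReal.ofReal (η * Real.log (1 + 27/4 * n) / 47628)
            * volume (Cv n k θ ∩ X1S ∪ (⋃ x ∈ s, Cv n k x) ∩ X1S) + volume (U \ Cv n k θ)
          ≤ ENNReal.ofReal (η * Real.log (1 + 27/4 * n) / 47628)
            * (volume (Cv n k θ ∩ X1S) + volume ((⋃ x ∈ s, Cv n k x) ∩ X1S))
              + volume (U \ Cv n k θ) := by
            gcongr
            exact measure_union_le _ _
        _ = ENNReal.ofReal (η * Real.log (1 + 27/4 * n) / 47628) * volume (Cv n k θ ∩ X1S)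
            + (ENNReal.ofReal (η * Real.log (1 + 27/4 * n) / 47628)
              * volume ((⋃ x ∈ s, Cv n k x) ∩ X1S) + volume (U \ Cv n k θ)) := by ring
        _ ≤ volume (Cv n k θ ∩ U)
            + (ENNReal.ofReal (η * Real.log (1 + 27/4 * n) / 47628)
              * volume ((⋃ x ∈ s, Cv n k x) ∩ X1S) + volume (U \ Cv n k θ)) := by
            gcongr
            exact le_self_add.trans hθ2
        _ = ENNReal.ofReal (η * Real.log (1 + 27/4 * n) / 47628)
              * volume ((⋃ x ∈ s, Cv n k x) ∩ X1S) + volume U := by rw [← h4]; ring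
        _ ≤ volume (GS k) := h1
    · rw [biUnion_insert]
      have e : GS k \ (Cv n k θ ∪ ⋃ x ∈ s, Cv n k x) = (GS k \ ⋃ x ∈ s, Cv n k x) \ Cv n k θ := by
        rw [union_comm, sdiff_sdiff]
      rw [e]
      set U := GS k \ ⋃ x ∈ s, Cv n k x with hU
      have h4 : volume (Cv n k θ ∩ U) + volume (U \ Cv n k θ) = volume U := by
        rw [inter_comm]; exact measure_inter_add_sdiff U (Cv_meas n k θ)
      push_cast
      calc volume (U \ Cv n k θ)
            + (↑N + 1) * ENNReal.ofReal (η * k * Real.log (1 + 27/4 * n) / (54 * n))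
          = (volume (U \ Cv n k θ) + ENNReal.ofReal (η * k * Real.log (1 + 27/4 * n) / (54 * n)))
            + ↑N * ENNReal.ofReal (η * k * Real.log (1 + 27/4 * n) / (54 * n)) := by ring
        _ ≤ (volume (U \ Cv n k θ) + volume (Cv n k θ ∩ U))
            + ↑N * ENNReal.ofReal (η * k * Real.log (1 + 27/4 * n) / (54 * n)) := by
            gcongr
            exact le_add_self.trans hθ2
        _ = volume U + ↑N * ENNReal.ofReal (η * k * Real.log (1 + 27/4 * n) / (54 * n)) := by
            rw [← h4]; ring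
        _ ≤ volume (GS k) := h3

lemma GS_vol {k : ℝ} (hk : 0 < k) : volume (GS k) ≤ ENNReal.ofReal (1/8) := by
  unfold GS
  rw [Measure.volume_eq_prod, Measure.prod_prod, Real.volume_Icc, Real.volume_Icc,
    ← ENNReal.ofReal_mul (by norm_num)]
  apply ENNReal.ofReal_le_ofReal
  nlinarith

/-- **Covering lemma.**  For every `η > 0` there is `n` such that at every scale `k` finitely many
blocks cover the target up to `η`, while the union of their single windows has measure `≤ η`. -/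
lemma covering {η : ℝ} (hη : 0 < η) : ∃ n : ℕ, ∀ k : ℝ, 0 < k →
    ∃ s : Set (Om n × ℝ × ℝ), s.Finite ∧ (∀ θ ∈ s, θ.2 ∈ AD k) ∧
      volume ((⋃ θ ∈ s, Cv n k θ) ∩ X1S) ≤ ENNReal.ofReal η ∧
      volume (GS k \ ⋃ θ ∈ s, Cv n k θ) ≤ ENNReal.ofReal η := by
  obtain ⟨n, hn0, hn⟩ : ∃ n : ℕ, 0 < n ∧ 6000 / η^2 ≤ Real.log (1 + 27/4 * n) := by
    obtain ⟨n, hn⟩ := exists_nat_ge (Real.exp (6000 / η^2))
    refine ⟨n + 1, Nat.succ_pos n, ?_⟩
    rw [Real.le_log_iff_exp_le (by positivity)]
    push_cast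
    linarith
  refine ⟨n, fun k hk => ?_⟩
  have hn' : (0:ℝ) < n := by exact_mod_cast hn0
  set L := Real.log (1 + 27/4 * n) with hL
  have hLpos : 0 < L := Real.log_pos (by linarith)
  have hδ : 0 < η * k * L / (54 * n) := by positivity
  obtain ⟨N, hN⟩ := exists_nat_gt ((1/8) / (η * k * L / (54 * n)))
  obtain ⟨s, hsf, hs, h1, h2⟩ := greedy hn0 hk hη N
  refine ⟨s, hsf, hs, ?_, ?_⟩
  · have h3 : ENNReal.ofReal (η * L / 47628) * volume ((⋃ θ ∈ s, Cv n k θ) ∩ X1S)
        ≤ ENNReal.ofReal (1/8) := (le_self_add.trans h1).trans (GS_vol hk)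
    have h4 : ENNReal.ofReal (1/8) ≤ ENNReal.ofReal (η * L / 47628) * ENNReal.ofReal η := by
      rw [← ENNReal.ofReal_mul (by positivity)]
      apply ENNReal.ofReal_le_ofReal
      have h5 : 6000 ≤ L * η^2 := by rwa [div_le_iff₀ (by positivity)] at hn
      nlinarith
    have h5 : ENNReal.ofReal (η * L / 47628) ≠ 0 := by
      rw [ENNReal.ofReal_ne_zero_iff]; positivity
    exact (ENNReal.mul_le_mul_iff_right h5 ENNReal.ofReal_ne_top).mp (h3.trans h4)
  · rcases h2 with h2 | h2
    · exact h2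
    · exfalso
      have h3 := (le_add_self.trans h2).trans (GS_vol hk)
      rw [← ENNReal.ofReal_natCast, ← ENNReal.ofReal_mul (Nat.cast_nonneg _),
        ENNReal.ofReal_le_ofReal_iff (by norm_num)] at h3
      rw [div_lt_iff₀ hδ] at hN
      linarith

end Pool.Agent.Q174.CD
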