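import Pool.Agent.Q174.CD.Perc

/-!
# Moments of the random configurations (helper file)
-/

open MeasureTheory Set

namespace Pool.Agent.Q174.CD

lemma NN_meas : ∀ (n : ℕ) (w : Om n), Measurable (fun p : ℝ × ℝ => NN n w p.1 p.2)
  | 0, _ => by
      simp only [NN]
      refine Measurable.ite ?_ measurable_const measurable_const
      exact (measurableSet_le measurable_const measurable_snd).inter
        (measurableSet_lt measurable_snd measurable_const)
  | n+1, w => by
      simp only [NN]
      have m1 : Measurable (fun p : ℝ × ℝ => (p.1, 3 * p.2 - 2 * cv (w.1).1 * p.1)) := by fun_prop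
      have m2 : Measurable (fun p : ℝ × ℝ => (p.1, 3 * p.2 - 1 - 2 * cv (w.2.1).1 * p.1)) := by
        fun_prop
      have m3 : Measurable (fun p : ℝ × ℝ => (p.1, 3 * p.2 - 2 - 2 * cv (w.2.2).1 * p.1)) := by
        fun_prop
      have h1 := (NN_meas n (w.1).2).comp m1
      have h2 := (NN_meas n (w.2.1).2).comp m2
      have h3 := (NN_meas n (w.2.2).2).comp m3
      exact (h1.add h2).add h3

lemma pos1_meas : Measurable pos1 :=
  Measurable.ite (measurableSet_lt measurable_const measurable_id) measurable_const measurable_const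

lemma av_meas {α β : Type} [Fintype α] [MeasurableSpace β] (f : α → β → ℝ)
    (h : ∀ a, Measurable (f a)) : Measurable (fun b => av fun a => f a b) := by
  unfold av
  exact (Finset.measurable_sum _ fun a _ => h a).div_const _

lemma pp_meas (n : ℕ) : Measurable (fun p : ℝ × ℝ => pp n p.1 p.2) :=
  av_meas _ fun w => pos1_meas.comp (NN_meas n w)
lemma ee_meas (n : ℕ) : Measurable (fun p : ℝ × ℝ => ee n p.1 p.2) :=
  av_meas _ fun w => NN_meas n w
lemma rr_meas (n : ℕ) : Measurable (fun p : ℝ × ℝ => rr n p.1 p.2) :=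
  av_meas _ fun w => (NN_meas n w).pow_const 2

lemma pp_meas' (n : ℕ) (X : ℝ) : Measurable (pp n X) := (pp_meas n).comp measurable_prodMk_left
lemma ee_meas' (n : ℕ) (X : ℝ) : Measurable (ee n X) := (ee_meas n).comp measurable_prodMk_left
lemma rr_meas' (n : ℕ) (X : ℝ) : Measurable (rr n X) := (rr_meas n).comp measurable_prodMk_left

lemma int_comp {g : ℝ → ℝ} (hg : Integrable g) (c : ℝ) :
    Integrable (fun u => g (3 * u - c)) ∧ ∫ u, g (3 * u - c) = (1/3) * ∫ u, g u := by
  have h1 : Integrable (fun y => g (y - c)) := hg.comp_sub_right c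
  refine ⟨h1.comp_mul_left' (by norm_num), ?_⟩
  have h2 := Measure.integral_comp_mul_left (fun y => g (y - c)) 3
  rw [integral_sub_right_eq_self] at h2
  rw [h2, smul_eq_mul, abs_of_pos (by norm_num)]
  norm_num

lemma T_int {g : ℝ → ℝ} (hg : Integrable g) (X : ℝ) :
    Integrable (T X g) ∧ ∫ u, T X g u = ∫ u, g u := by
  have h1 := int_comp hg 0
  have h2 := int_comp hg (2 * X)
  have h3 := int_comp hg 1
  have h4 := int_comp hg (1 + 2 * X)
  have h5 := int_comp hg 2
  have h6 := int_comp hg (2 + 2 * X)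
  have e : T X g = fun u => (1/2) * (((((g (3*u-0) + g (3*u-2*X)) + g (3*u-1)) + g (3*u-(1+2*X)))
      + g (3*u-2)) + g (3*u-(2+2*X))) := by
    funext u
    unfold T
    rw [sub_zero, sub_add_eq_sub_sub, sub_add_eq_sub_sub]
    ring
  have i1 := h1.1.add h2.1
  have i2 := i1.add h3.1
  have i3 := i2.add h4.1
  have i4 := i3.add h5.1
  have i5 := i4.add h6.1
  rw [e]
  refine ⟨i5.const_mul (1/2), ?_⟩
  rw [integral_const_mul]
  have := integral_add i4 h6.1
  simp only [Pi.add_apply] at this
  rw [this]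
  have := integral_add i3 h5.1
  simp only [Pi.add_apply] at this
  rw [this]
  have := integral_add i2 h4.1
  simp only [Pi.add_apply] at this
  rw [this]
  have := integral_add i1 h3.1
  simp only [Pi.add_apply] at this
  rw [this]
  have := integral_add h1.1 h2.1
  rw [this, h1.2, h2.2, h3.2, h4.2, h5.2, h6.2]
  ring

lemma SS_eq (L : ℝ) : SS L = (Set.Ico 0 L).indicator (fun _ => (1:ℝ)) := by
  funext u
  simp [SS, Set.indicator, Set.mem_Ico]

lemma SS_int {L : ℝ} (hL : 0 ≤ L) : Integrable (SS L) ∧ ∫ u, SS L u = L := by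
  rw [SS_eq]
  constructor
  · exact (integrable_indicator_iff measurableSet_Ico).mpr (integrableOn_const (by simp))
  · rw [integral_indicator measurableSet_Ico]
    simp [hL]

lemma ee_int (n : ℕ) (X : ℝ) : Integrable (ee n X) ∧ ∫ u, ee n X u = 1 := by
  induction n with
  | zero => rw [ee_zero_eq]; exact SS_int zero_le_one
  | succ n ih =>
    rw [ee_succ_eq]
    have := T_int ih.1 X
    exact ⟨this.1, this.2.trans ih.2⟩

lemma rr_zero_eq (X : ℝ) : rr 0 X = SS 1 := by
  funext u
  unfold rr
  simp only [NN, SS]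
  rw [av_const]
  split_ifs <;> norm_num

/-- averaged first moment -/
noncomputable def eb (n : ℕ) (X t : ℝ) : ℝ := (ee n X t + ee n X (t - 2*X)) / 2

lemma eb_nonneg (n : ℕ) (X t : ℝ) : 0 ≤ eb n X t := by
  have := ee_nonneg n X t; have := ee_nonneg n X (t - 2*X); unfold eb; linarith
lemma eb_le (n : ℕ) (X t : ℝ) : eb n X t ≤ 1 := by
  have := ee_le_one n X t; have := ee_le_one n X (t - 2*X); unfold eb; linarith
lemma eb_zero {X : ℝ} (hX : 0 ≤ X) (n : ℕ) (t : ℝ) (h : t < 0 ∨ 1 + 3*X ≤ t) : eb n X t = 0 := by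
  unfold eb
  rw [ee_zero hX n t (by rcases h with h | h
                         · left; exact h
                         · right; linarith),
    ee_zero hX n (t - 2*X) (by rcases h with h | h
                               · left; linarith
                               · right; linarith)]
  norm_num

lemma eb_prod {X : ℝ} (hX : 0 ≤ X) (n : ℕ) (u j k : ℝ) (hjk : j + 1 ≤ k) :
    eb n X (3*u - j) * eb n X (3*u - k) ≤ SS X (u - k/3) := by
  unfold SS
  split_ifs with h
  · exact mul_le_one₀ (eb_le _ _ _) (eb_nonneg _ _ _) (eb_le _ _ _)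
  · rw [not_and_or, not_le, not_lt] at h
    rcases h with h | h
    · rw [eb_zero hX n (3*u - k) (Or.inl (by linarith))]; simp
    · rw [eb_zero hX n (3*u - j) (Or.inr (by linarith))]; simp

lemma rr_le {X : ℝ} (hX : 0 ≤ X) (n : ℕ) (u : ℝ) :
    rr (n+1) X u ≤ T X (rr n X) u + (2 * SS X (u - 1/3) + 4 * SS X (u - 2/3)) := by
  rw [rr_succ]
  have h1 := eb_prod hX n u 0 1 (by norm_num)
  have h2 := eb_prod hX n u 0 2 (by norm_num)
  have h3 := eb_prod hX n u 1 2 (by norm_num)
  rw [sub_zero] at h1 h2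
  unfold eb at h1 h2 h3
  unfold T
  linarith

lemma rr_int {X : ℝ} (hX : 0 ≤ X) (n : ℕ) : Integrable (rr n X) ∧ ∫ u, rr n X u ≤ 1 + 6 * n * X := by
  induction n with
  | zero =>
    rw [rr_zero_eq]
    have := SS_int zero_le_one
    refine ⟨this.1, ?_⟩
    rw [this.2]; simp
  | succ n ih =>
    have hT := T_int ih.1 X
    have hS := SS_int hX
    have s1 : Integrable (fun u => SS X (u - 1/3)) := hS.1.comp_sub_right _
    have s2 : Integrable (fun u => SS X (u - 2/3)) := hS.1.comp_sub_right _
    have s3 : Integrable (fun u => 2 * SS X (u - 1/3) + 4 * SS X (u - 2/3)) :=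
      (s1.const_mul 2).add (s2.const_mul 4)
    have s4 : Integrable (fun u => T X (rr n X) u + (2 * SS X (u - 1/3) + 4 * SS X (u - 2/3))) :=
      hT.1.add s3
    have hint : Integrable (rr (n+1) X) := by
      refine s4.mono' (rr_meas' (n+1) X).aestronglyMeasurable (Filter.Eventually.of_forall fun u => ?_)
      rw [Real.norm_eq_abs, abs_of_nonneg (rr_nonneg _ _ _)]
      exact rr_le hX n u
    refine ⟨hint, ?_⟩
    have hle := integral_mono hint s4 (fun u => rr_le hX n u)
    rw [integral_add hT.1 s3, hT.2, integral_add (s1.const_mul 2) (s2.const_mul 4),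
      integral_const_mul, integral_const_mul, integral_sub_right_eq_self (fun u => SS X u),
      integral_sub_right_eq_self (fun u => SS X u), hS.2] at hle
    push_cast
    linarith [ih.2]

lemma pp_le_SS {X : ℝ} (hX : 0 ≤ X) (n : ℕ) (u : ℝ) : pp n X u ≤ SS (1 + X) u := by
  unfold SS
  split_ifs with h
  · exact pp_le n X u
  · rw [not_and_or, not_le, not_lt] at h
    exact (pp_zero hX n u h).le

lemma pp_int {X : ℝ} (hX : 0 ≤ X) (n : ℕ) : Integrable (pp n X) := by
  refine (SS_int (L := 1 + X) (by linarith)).1.mono' (pp_meas' n X).aestronglyMeasurable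
    (Filter.Eventually.of_forall fun u => ?_)
  rw [Real.norm_eq_abs, abs_of_nonneg (pp_nonneg _ _ _)]
  exact pp_le_SS hX n u

lemma pp_ge (n : ℕ) (X u l : ℝ) : 2 * l * ee n X u + (-l^2) * rr n X u ≤ pp n X u := by
  unfold ee rr pp
  rw [← av_mul_left, ← av_mul_left, ← av_add]
  refine av_mono fun w => ?_
  unfold pos1
  split_ifs with h
  · nlinarith [sq_nonneg (1 - l * NN n w X u)]
  · have : NN n w X u = 0 := le_antisymm (not_lt.mp h) (NN_nonneg _ _ _ _)
    rw [this]; simp

/-- **Second moment bound.** -/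
lemma pp_int_ge {X : ℝ} (hX : 0 ≤ X) (n : ℕ) : 1 / (1 + 6 * n * X) ≤ ∫ u, pp n X u := by
  have hq : 0 < 1 + 6 * (n:ℝ) * X := by positivity
  set l := 1 / (1 + 6 * (n:ℝ) * X) with hl
  have hl0 : 0 < l := by positivity
  have hE := ee_int n X
  have hR := rr_int hX n
  have h1 := integral_mono ((hE.1.const_mul (2*l)).add (hR.1.const_mul (-l^2))) (pp_int hX n)
    (fun u => pp_ge n X u l)
  have h2 := integral_add (hE.1.const_mul (2*l)) (hR.1.const_mul (-l^2))
  simp only [Pi.add_apply] at h1
  rw [h2, integral_const_mul, integral_const_mul, hE.2] at h1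
  have h3 : l^2 * ∫ u, rr n X u ≤ l^2 * (1 + 6 * n * X) := by gcongr; exact hR.2
  have h4 : l^2 * (1 + 6 * (n:ℝ) * X) = l := by rw [hl]; field_simp
  linarith

end Pool.Agent.Q174.CD
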