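import Pool.Agent.Q174.CD.Norm

/-!
# Nested families of tubes (helper file)
-/

open MeasureTheory Set Filter Topology

namespace Pool.Agent.Q174.CD

/-- affine change of coordinates -/
def Psi (a b c : ℝ) (z : ℝ × ℝ) : ℝ × ℝ := (z.1, (z.2 - a * z.1 - b) * c)

lemma Psi_vol (a b : ℝ) {c : ℝ} (hc : 0 < c) (S : Set (ℝ × ℝ)) :
    volume (Psi a b c ⁻¹' S) ≤ ENNReal.ofReal c⁻¹ * volume S := by
  have hmeas : Measurable (Psi a b c) := by unfold Psi; fun_prop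
  have key : ∀ A : Set (ℝ × ℝ), MeasurableSet A →
      volume (Psi a b c ⁻¹' A) = ENNReal.ofReal c⁻¹ * volume A := by
    intro A hA
    rw [Measure.volume_eq_prod, Measure.prod_apply (hmeas hA), Measure.prod_apply hA,
      ← lintegral_const_mul _ (measurable_measure_prodMk_left hA)]
    refine lintegral_congr fun x => ?_
    have e : Prod.mk x ⁻¹' (Psi a b c ⁻¹' A)
        = (fun y => y + (-(a * x + b))) ⁻¹' ((fun y => y * c) ⁻¹' (Prod.mk x ⁻¹' A)) := by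
      ext y
      simp only [mem_preimage, Psi]
      rw [show (y + -(a * x + b)) * c = (y - a * x - b) * c by ring]
    rw [e, measure_preimage_add_right, Real.volume_preimage_mul_right hc.ne',
      abs_of_pos (inv_pos.mpr hc)]
  calc volume (Psi a b c ⁻¹' S) ≤ volume (Psi a b c ⁻¹' (toMeasurable volume S)) :=
        measure_mono (preimage_mono (subset_toMeasurable _ _))
    _ = ENNReal.ofReal c⁻¹ * volume S := by
        rw [key _ (measurableSet_toMeasurable _ _), measure_toMeasurable]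

/-- a finite family of tubes with separated slope cells -/
structure Fam where
  m : ℕ
  q : ℕ
  T : Finset (ℝ × ℝ)
  cell : ∀ p ∈ T, ∀ s ∈ cantorSet, p.1 + (1/3:ℝ)^m * s ∈ cantorSet
  sep : ∀ p ∈ T, ∀ p' ∈ T, p ≠ p' → (1/3:ℝ)^m < |p.1 - p'.1|

/-- the lines `y = l.1 x + l.2` of a family -/
def LS (F : Fam) : Set (ℝ × ℝ) :=
  {l | ∃ p ∈ F.T, (∃ s ∈ cantorSet, l.1 = p.1 + (1/3:ℝ)^F.m * s) ∧
    l.2 ∈ Icc p.2 (p.2 + (1/3:ℝ)^F.q)}

lemma LS_compact (F : Fam) : IsCompact (LS F) := by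
  have e : LS F = ⋃ p ∈ F.T, ((fun s => p.1 + (1/3:ℝ)^F.m * s) '' cantorSet)
      ×ˢ Icc p.2 (p.2 + (1/3:ℝ)^F.q) := by
    ext l
    simp only [LS, mem_ofPred_eq, mem_iUnion, mem_prod, mem_image, exists_prop]
    constructor
    · rintro ⟨p, hp, ⟨s, hs, h1⟩, h2⟩
      exact ⟨p, hp, ⟨s, hs, h1.symm⟩, h2⟩
    · rintro ⟨p, hp, ⟨s, hs, h1⟩, h2⟩
      exact ⟨p, hp, ⟨s, hs, h1.symm⟩, h2⟩
  rw [e]
  refine F.T.isCompact_biUnion fun p _ => ?_
  exact (isCompact_cantorSet.image (by fun_prop)).prod isCompact_Icc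

def DD (F : Fam) : Set (ℝ × ℝ) :=
  {z | z.1 ∈ Icc (1/4:ℝ) (3/8) ∧ ∃ p ∈ F.T, z.2 - p.1 * z.1 ∈ Icc p.2 (p.2 + (1/3:ℝ)^F.q)}

def R1 (L : Set (ℝ × ℝ)) : Set (ℝ × ℝ) :=
  {z | z.1 ∈ Icc (1/2:ℝ) (3/2) ∧ ∃ l ∈ L, z.2 = l.1 * z.1 + l.2}
def R2 (L : Set (ℝ × ℝ)) : Set (ℝ × ℝ) :=
  {z | z.1 ∈ Icc (1/4:ℝ) (3/8) ∧ ∃ l ∈ L, z.2 = l.1 * z.1 + l.2}

lemma DD_sub (F : Fam) : DD F ⊆ R2 (LS F) := by
  rintro z ⟨hz1, p, hp, hz2⟩
  exact ⟨hz1, (p.1, z.2 - p.1 * z.1), ⟨p, hp, ⟨0, C_zero, by simp⟩, hz2⟩, by simp⟩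

lemma R2_compact {L : Set (ℝ × ℝ)} (hL : IsCompact L) : IsCompact (R2 L) := by
  have e : R2 L = (fun q : ℝ × (ℝ × ℝ) => (q.1, q.2.1 * q.1 + q.2.2)) ''
      (Icc (1/4:ℝ) (3/8) ×ˢ L) := by
    ext z
    simp only [R2, mem_ofPred_eq, mem_image, mem_prod, Prod.exists]
    constructor
    · rintro ⟨h1, a, b, h2, h3⟩
      exact ⟨z.1, a, b, ⟨h1, h2⟩, by rw [← h3]⟩
    · rintro ⟨x, a, b, ⟨h1, h2⟩, rfl⟩
      exact ⟨h1, a, b, h2, rfl⟩
  rw [e]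
  exact (isCompact_Icc.prod hL).image (by fun_prop)

lemma step (F : Fam) {ε : ℝ} (hε : 0 < ε) : ∃ F' : Fam, LS F' ⊆ LS F ∧ F.q + 1 ≤ F'.q ∧
    volume (R1 (LS F')) ≤ ENNReal.ofReal ε ∧ volume (DD F \ DD F') ≤ ENNReal.ofReal ε := by
  classical
  set J : ℝ := (F.T.card : ℝ) with hJ
  have hJ0 : 0 ≤ J := Nat.cast_nonneg _
  set η := ε / (J + 1) with hη
  have hη0 : 0 < η := by positivity
  have hJη : J * η ≤ ε := by
    rw [hη, mul_div_assoc', div_le_iff₀ (by positivity)]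
    nlinarith
  obtain ⟨r0, hr0⟩ := exists_NF hη0
  obtain ⟨mA, qA, TA, hqA, c1, c2, c3, c4, c5⟩ := hr0 (r0 + F.m) (by omega)
  set r := r0 + F.m with hr
  set m' := (r + F.q) + mA with hm'
  set q' := F.q + qA with hq'
  set g : (ℝ × ℝ) × (ℝ × ℝ) → ℝ × ℝ :=
    fun pa => (pa.1.1 + (1/3:ℝ)^(r + F.q) * pa.2.1, pa.1.2 + (1/3:ℝ)^F.q * pa.2.2) with hg
  have hrq : (1/3:ℝ)^(r + F.q) ≤ (1/3:ℝ)^F.m :=
    pow_le_pow_of_le_one (by norm_num) (by norm_num) (by omega)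
  have hrq0 : 0 < (1/3:ℝ)^(r + F.q) := by positivity
  have hq0 : 0 < (1/3:ℝ)^F.q := by positivity
  -- the cells of the children inside the cells of the parents
  have hin : ∀ v ∈ cantorSet, ∃ s ∈ cantorSet, (1/3:ℝ)^(r + F.q) * v = (1/3:ℝ)^F.m * s := by
    intro v hv
    refine ⟨(1/3:ℝ)^(r0 + F.q) * v, C_pow hv _, ?_⟩
    rw [← mul_assoc, ← pow_add]
    congr 2
    omega
  have hexp : ∀ s : ℝ, (1/3:ℝ)^m' * s = (1/3:ℝ)^(r + F.q) * ((1/3:ℝ)^mA * s) := by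
    intro s
    rw [hm', pow_add (1/3:ℝ) (r + F.q) mA, mul_assoc]
  let F' : Fam :=
    { m := m'
      q := q'
      T := (F.T ×ˢ TA).image g
      cell := by
        intro p' hp' s hs
        rw [Finset.mem_image] at hp'
        obtain ⟨⟨p, a⟩, hpa, rfl⟩ := hp'
        rw [Finset.mem_product] at hpa
        obtain ⟨s', hs', h1⟩ := hin _ (c1 a hpa.2 s hs)
        have h2 := F.cell p hpa.1 s' hs'
        rw [← h1] at h2
        convert h2 using 1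
        simp only [hg]
        rw [hexp]
        ring
      sep := by
        intro b hb b' hb' hne
        rw [Finset.mem_image] at hb hb'
        obtain ⟨⟨p, a⟩, hpa, rfl⟩ := hb
        obtain ⟨⟨p', a'⟩, hpa', rfl⟩ := hb'
        rw [Finset.mem_product] at hpa hpa'
        simp only [hg]
        have hA : 0 < (1/3:ℝ)^mA := by positivity
        have ha1 : 0 ≤ a.1 := C_nonneg (by simpa using c1 a hpa.2 0 C_zero)
        have ha1' : 0 ≤ a'.1 := C_nonneg (by simpa using c1 a' hpa'.2 0 C_zero)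
        have ha2 : a.1 + (1/3:ℝ)^mA * 1 ≤ 1 := C_le (c1 a hpa.2 1 C_one)
        have ha2' : a'.1 + (1/3:ℝ)^mA * 1 ≤ 1 := C_le (c1 a' hpa'.2 1 C_one)
        have hm1 := hexp 1
        rw [mul_one] at hm1
        rw [hm1]
        by_cases hpp : p = p'
        · subst hpp
          have haa : a ≠ a' := fun h => hne (by rw [h])
          have e : p.1 + (1/3:ℝ)^(r + F.q) * a.1 - (p.1 + (1/3:ℝ)^(r + F.q) * a'.1)
              = (1/3:ℝ)^(r + F.q) * (a.1 - a'.1) := by ring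
          rw [e, abs_mul, abs_of_pos hrq0]
          have := c3 a hpa.2 a' hpa'.2 haa
          rw [mul_one]
          gcongr
        · have h1 := F.sep p hpa.1 p' hpa'.1 hpp
          have e1 : (1/3:ℝ)^(r + F.q) * (a.1 + (1/3:ℝ)^mA * 1) ≤ (1/3:ℝ)^(r + F.q) * 1 := by gcongr
          have e2 : (1/3:ℝ)^(r + F.q) * (a'.1 + (1/3:ℝ)^mA * 1) ≤ (1/3:ℝ)^(r + F.q) * 1 := by gcongr
          have e3 : 0 ≤ (1/3:ℝ)^(r + F.q) * a.1 := by positivity
          have e4 : 0 ≤ (1/3:ℝ)^(r + F.q) * a'.1 := by positivity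
          rcases le_total p.1 p'.1 with h | h
          · rw [abs_sub_comm, abs_of_nonneg (by linarith)] at h1
            rw [abs_sub_comm]
            refine lt_of_lt_of_le ?_ (le_abs_self _)
            linarith
          · rw [abs_of_nonneg (by linarith)] at h1
            refine lt_of_lt_of_le ?_ (le_abs_self _)
            linarith }
  have hwq : (1/3:ℝ)^q' = (1/3:ℝ)^F.q * (1/3:ℝ)^qA := by rw [hq', pow_add]
  have hcinv : (((1/3:ℝ)^F.q)⁻¹)⁻¹ = (1/3:ℝ)^F.q := inv_inv _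
  have hcpos : 0 < ((1/3:ℝ)^F.q)⁻¹ := by positivity
  have hq1 : (1/3:ℝ)^F.q ≤ 1 := pow_le_one₀ (by norm_num) (by norm_num)
  have hpr : (1/3:ℝ)^(r + F.q) = (1/3:ℝ)^F.q * (1/3:ℝ)^r := by rw [pow_add, mul_comm]
  have hcard : ∀ (S : Set (ℝ × ℝ)), volume S ≤ ENNReal.ofReal η →
      volume (⋃ p ∈ F.T, Psi p.1 p.2 ((1/3:ℝ)^F.q)⁻¹ ⁻¹' S) ≤ ENNReal.ofReal ε := by
    intro S hS
    refine (measure_biUnion_finset_le _ _).trans ?_
    refine (Finset.sum_le_sum fun p _ => (Psi_vol p.1 p.2 hcpos S)).trans ?_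
    rw [Finset.sum_const, nsmul_eq_mul, hcinv, ← ENNReal.ofReal_natCast]
    calc ENNReal.ofReal (F.T.card) * (ENNReal.ofReal ((1/3:ℝ)^F.q) * volume S)
        ≤ ENNReal.ofReal (F.T.card) * (ENNReal.ofReal 1 * ENNReal.ofReal η) := by gcongr
      _ = ENNReal.ofReal (J * η) := by
          rw [ENNReal.ofReal_one, one_mul, ← ENNReal.ofReal_mul hJ0]
      _ ≤ ENNReal.ofReal ε := ENNReal.ofReal_le_ofReal hJη
  refine ⟨F', ?_, by show F.q + 1 ≤ q'; omega, ?_, ?_⟩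
  · rintro l ⟨p', hp', ⟨s, hs, h1⟩, h2⟩
    replace hp' : p' ∈ (F.T ×ˢ TA).image g := hp'
    rw [Finset.mem_image] at hp'
    obtain ⟨⟨p, a⟩, hpa, rfl⟩ := hp'
    rw [Finset.mem_product] at hpa
    obtain ⟨s', hs', h3⟩ := hin _ (c1 a hpa.2 s hs)
    have h4 := c2 a hpa.2
    replace h1 : l.1 = (g (p, a)).1 + (1/3:ℝ)^m' * s := h1
    replace h2 : l.2 ∈ Icc (g (p, a)).2 ((g (p, a)).2 + (1/3:ℝ)^q') := h2
    simp only [hg] at h1 h2
    refine ⟨p, hpa.1, ⟨s', hs', ?_⟩, ?_, ?_⟩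
    · rw [h1, ← h3, hexp]; ring
    · have : 0 ≤ (1/3:ℝ)^F.q * a.2 := mul_nonneg hq0.le h4.1
      linarith [h2.1]
    · have e : (1/3:ℝ)^F.q * (a.2 + (1/3:ℝ)^qA) ≤ (1/3:ℝ)^F.q * 1 := by
        gcongr; exact h4.2
      rw [hwq] at h2
      linarith [h2.2]
  · refine (measure_mono ?_).trans (hcard _ c4)
    rintro z ⟨hz1, l, ⟨p', hp', ⟨s, hs, h1⟩, h2⟩, h3⟩
    replace hp' : p' ∈ (F.T ×ˢ TA).image g := hp'
    rw [Finset.mem_image] at hp'
    obtain ⟨⟨p, a⟩, hpa, rfl⟩ := hp'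
    rw [Finset.mem_product] at hpa
    replace h1 : l.1 = (g (p, a)).1 + (1/3:ℝ)^m' * s := h1
    replace h2 : l.2 ∈ Icc (g (p, a)).2 ((g (p, a)).2 + (1/3:ℝ)^q') := h2
    simp only [hg] at h1 h2
    refine mem_biUnion hpa.1 ?_
    simp only [mem_preimage, Psi, mem_ofPred_eq]
    refine ⟨hz1, a, hpa.2, s, hs, ?_⟩
    rw [hexp] at h1
    have e : (z.2 - p.1 * z.1 - p.2) * ((1/3:ℝ)^F.q)⁻¹ - (1/3:ℝ)^r * (a.1 + (1/3:ℝ)^mA * s) * z.1
        = (l.2 - p.2) * ((1/3:ℝ)^F.q)⁻¹ := by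
      rw [h3, h1, hpr]
      field_simp
      ring
    rw [e, hwq] at *
    rw [← div_eq_mul_inv]
    constructor
    · rw [le_div_iff₀ hq0]; linarith [h2.1]
    · rw [div_le_iff₀ hq0]; linarith [h2.2]
  · refine (measure_mono ?_).trans (hcard _ c5)
    rintro z ⟨⟨hz1, p, hp, hz2⟩, hz3⟩
    refine mem_biUnion hp ?_
    simp only [mem_preimage, Psi, mem_ofPred_eq]
    refine ⟨hz1, ⟨?_, ?_⟩, ?_⟩
    · exact mul_nonneg (by linarith [hz2.1]) hcpos.le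
    · rw [← div_eq_mul_inv, div_le_one hq0]; linarith [hz2.2]
    · intro a ha hmem
      apply hz3
      refine ⟨hz1, g (p, a), Finset.mem_image_of_mem g (Finset.mem_product.mpr ⟨hp, ha⟩), ?_⟩
      show z.2 - (g (p, a)).1 * z.1 ∈ Icc (g (p, a)).2 ((g (p, a)).2 + (1/3:ℝ)^q')
      simp only [hg]
      have e : (z.2 - p.1 * z.1 - p.2) * ((1/3:ℝ)^F.q)⁻¹ - (1/3:ℝ)^r * a.1 * z.1
          = (z.2 - (p.1 + (1/3:ℝ)^(r + F.q) * a.1) * z.1 - p.2) * ((1/3:ℝ)^F.q)⁻¹ := by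
        rw [hpr]
        field_simp
        ring
      rw [e, ← div_eq_mul_inv] at hmem
      obtain ⟨h5, h6⟩ := hmem
      rw [le_div_iff₀ hq0] at h5
      rw [div_le_iff₀ hq0] at h6
      rw [hwq]
      constructor <;> linarith

end Pool.Agent.Q174.CD
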