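import Pool.Agent.Q174.CD.Block

/-!
# Normalised families of tubes with pairwise separated slope cells (helper file)
-/

open MeasureTheory Set

namespace Pool.Agent.Q174.CD

/-! ## the Cantor set -/

lemma C_third {s : ℝ} (hs : s ∈ cantorSet) : s / 3 ∈ cantorSet := by
  rw [cantorSet_eq_union_halves]; exact Or.inl ⟨s, hs, rfl⟩

lemma C_two {s : ℝ} (hs : s ∈ cantorSet) : (2 + s) / 3 ∈ cantorSet := by
  rw [cantorSet_eq_union_halves]; exact Or.inr ⟨s, hs, rfl⟩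

lemma C_pow {s : ℝ} (hs : s ∈ cantorSet) (j : ℕ) : (1/3:ℝ)^j * s ∈ cantorSet := by
  induction j with
  | zero => simpa using hs
  | succ j ih =>
    have := C_third ih
    rw [pow_succ]
    convert this using 1
    ring

lemma C_one : (1:ℝ) ∈ cantorSet := by
  rw [cantorSet, mem_iInter]
  intro n
  induction n with
  | zero => simp
  | succ n ih =>
    rw [preCantorSet_succ]
    exact Or.inr ⟨1, ih, by norm_num⟩

lemma C_zero : (0:ℝ) ∈ cantorSet := zero_mem_cantorSet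

lemma C_nonneg {s : ℝ} (hs : s ∈ cantorSet) : 0 ≤ s := (cantorSet_subset_unitInterval hs).1
lemma C_le {s : ℝ} (hs : s ∈ cantorSet) : s ≤ 1 := (cantorSet_subset_unitInterval hs).2

/-! ## tubes of a configuration -/

def tb : (n : ℕ) → Om n → Set (ℝ × ℝ)
  | 0, _ => {(0, 0)}
  | n+1, w => (fun p : ℝ × ℝ => ((2 * cv (w.1).1 + p.1) / 3, (0 + p.2) / 3)) '' tb n (w.1).2
      ∪ (fun p : ℝ × ℝ => ((2 * cv (w.2.1).1 + p.1) / 3, (1 + p.2) / 3)) '' tb n (w.2.1).2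
      ∪ (fun p : ℝ × ℝ => ((2 * cv (w.2.2).1 + p.1) / 3, (2 + p.2) / 3)) '' tb n (w.2.2).2

lemma tb_finite : ∀ (n : ℕ) (w : Om n), (tb n w).Finite
  | 0, _ => by simp [tb]
  | n+1, w => by
      simp only [tb]
      exact (((tb_finite n _).image _).union ((tb_finite n _).image _)).union
        ((tb_finite n _).image _)

lemma cv_cell (b : Bool) {s : ℝ} (hs : s ∈ cantorSet) : (2 * cv b + s) / 3 ∈ cantorSet := by
  unfold cv
  split_ifs
  · simpa using C_two hs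
  · simpa using C_third hs

/-- properties of the tubes of a configuration -/
def TP (n : ℕ) (p : ℝ × ℝ) : Prop :=
  (∀ s ∈ cantorSet, p.1 + (1/3:ℝ)^n * s ∈ cantorSet) ∧ 0 ≤ p.2 ∧ p.2 + (1/3:ℝ)^n ≤ 1 ∧
    ∃ a : ℕ, p.1 = a * (1/3:ℝ)^n

lemma TP_step {n : ℕ} {p : ℝ × ℝ} (hp : TP n p) (b : Bool) {j : ℝ} (hj0 : 0 ≤ j) (hj : j ≤ 2) :
    TP (n+1) ((2 * cv b + p.1) / 3, (j + p.2) / 3) := by
  obtain ⟨h1, h2, h3, a, ha⟩ := hp
  refine ⟨fun s hs => ?_, ?_, ?_, ?_⟩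
  · have := cv_cell b (h1 s hs)
    convert this using 1
    simp only
    rw [pow_succ]
    ring
  · simp only; linarith
  · simp only [pow_succ]; linarith
  · refine ⟨(if b then 2 * 3^n else 0) + a, ?_⟩
    have h4 : (3:ℝ)^n * (1/3:ℝ)^n = 1 := by rw [← mul_pow]; norm_num
    simp only [cv, pow_succ]
    rw [ha]
    split_ifs
    · push_cast
      linear_combination (-2/3) * h4
    · push_cast; ring

lemma tb_TP : ∀ (n : ℕ) (w : Om n), ∀ p ∈ tb n w, TP n p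
  | 0, _, p, hp => by
      simp only [tb, mem_singleton_iff] at hp
      subst hp
      refine ⟨fun s hs => by simpa using hs, le_refl _, by simp, 0, by simp⟩
  | n+1, w, p, hp => by
      simp only [tb] at hp
      rcases hp with (⟨p', hp', rfl⟩ | ⟨p', hp', rfl⟩) | ⟨p', hp', rfl⟩
      · exact TP_step (tb_TP n _ p' hp') _ (le_refl _) (by norm_num)
      · exact TP_step (tb_TP n _ p' hp') _ (by norm_num) (by norm_num)
      · exact TP_step (tb_TP n _ p' hp') _ (by norm_num) (by norm_num)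

lemma tb_scale {n : ℕ} (X u c j : ℝ) (A : Set (ℝ × ℝ)) :
    (∃ p ∈ A, p.1 * X + p.2 ≤ 3 * u - j - 2 * c * X ∧
        3 * u - j - 2 * c * X < p.1 * X + p.2 + (1/3:ℝ)^n) ↔
    (∃ p ∈ (fun p : ℝ × ℝ => ((2 * c + p.1) / 3, (j + p.2) / 3)) '' A,
      p.1 * X + p.2 ≤ u ∧ u < p.1 * X + p.2 + (1/3:ℝ)^(n+1)) := by
  constructor
  · rintro ⟨p, hp, h1, h2⟩
    refine ⟨_, ⟨p, hp, rfl⟩, ?_, ?_⟩
    · simp only; linarith
    · simp only [pow_succ]; linarith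
  · rintro ⟨_, ⟨p, hp, rfl⟩, h1, h2⟩
    simp only [pow_succ] at h1 h2
    exact ⟨p, hp, by linarith, by linarith⟩

lemma tb_spec : ∀ (n : ℕ) (w : Om n) (X u : ℝ), 0 < NN n w X u ↔
    ∃ p ∈ tb n w, p.1 * X + p.2 ≤ u ∧ u < p.1 * X + p.2 + (1/3:ℝ)^n
  | 0, _, X, u => by
      simp only [NN, tb]
      split_ifs with h
      · simpa using h
      · simpa using h
  | n+1, w, X, u => by
      have h1 := NN_nonneg n (w.1).2 X (3 * u - 2 * cv (w.1).1 * X)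
      have h2 := NN_nonneg n (w.2.1).2 X (3 * u - 1 - 2 * cv (w.2.1).1 * X)
      have h3 := NN_nonneg n (w.2.2).2 X (3 * u - 2 - 2 * cv (w.2.2).1 * X)
      have hpos : 0 < NN (n+1) w X u ↔ (0 < NN n (w.1).2 X (3 * u - 2 * cv (w.1).1 * X) ∨
          0 < NN n (w.2.1).2 X (3 * u - 1 - 2 * cv (w.2.1).1 * X)) ∨
          0 < NN n (w.2.2).2 X (3 * u - 2 - 2 * cv (w.2.2).1 * X) := by
        simp only [NN]
        constructor
        · intro h
          by_contra hne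
          push Not at hne
          linarith [hne.1.1, hne.1.2, hne.2]
        · rintro ((h | h) | h) <;> linarith
      have e0 := tb_scale (n := n) X u (cv (w.1).1) 0 (tb n (w.1).2)
      have e1 := tb_scale (n := n) X u (cv (w.2.1).1) 1 (tb n (w.2.1).2)
      have e2 := tb_scale (n := n) X u (cv (w.2.2).1) 2 (tb n (w.2.2).2)
      rw [sub_zero] at e0
      rw [hpos, tb_spec n, tb_spec n, tb_spec n, e0, e1, e2]
      simp only [tb]
      constructor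
      · rintro ((⟨p, hp, h⟩ | ⟨p, hp, h⟩) | ⟨p, hp, h⟩)
        · exact ⟨p, Or.inl (Or.inl hp), h⟩
        · exact ⟨p, Or.inl (Or.inr hp), h⟩
        · exact ⟨p, Or.inr hp, h⟩
      · rintro ⟨p, (hp | hp) | hp, h⟩
        · exact Or.inl (Or.inl ⟨p, hp, h⟩)
        · exact Or.inl (Or.inr ⟨p, hp, h⟩)
        · exact Or.inr ⟨p, hp, h⟩

/-! ## strips -/

lemma strip_vol {a c : ℝ} (s p : ℝ) {t : ℝ} (ht : 0 ≤ t) :
    volume {z : ℝ × ℝ | z.1 ∈ Icc a c ∧ z.2 - s * z.1 ∈ Icc p (p + t)} ≤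
      ENNReal.ofReal ((c - a) * t) := by
  have hm : MeasurableSet {z : ℝ × ℝ | z.1 ∈ Icc a c ∧ z.2 - s * z.1 ∈ Icc p (p + t)} := by
    refine MeasurableSet.inter (measurable_fst measurableSet_Icc) ?_
    have : Measurable (fun z : ℝ × ℝ => z.2 - s * z.1) := by fun_prop
    exact this measurableSet_Icc
  rw [Measure.volume_eq_prod, Measure.prod_apply hm]
  calc ∫⁻ x, volume (Prod.mk x ⁻¹' {z : ℝ × ℝ | z.1 ∈ Icc a c ∧ z.2 - s * z.1 ∈ Icc p (p + t)})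
      ≤ ∫⁻ x, (Icc a c).indicator (fun _ => ENNReal.ofReal t) x := by
        refine lintegral_mono fun x => ?_
        by_cases hx : x ∈ Icc a c
        · rw [indicator_of_mem hx]
          have : Prod.mk x ⁻¹' {z : ℝ × ℝ | z.1 ∈ Icc a c ∧ z.2 - s * z.1 ∈ Icc p (p + t)}
              ⊆ Icc (p + s * x) (p + s * x + t) := by
            rintro y ⟨-, h1, h2⟩
            exact ⟨by simp only at h1; linarith, by simp only at h2; linarith⟩
          refine (measure_mono this).trans ?_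
          rw [Real.volume_Icc]
          apply ENNReal.ofReal_le_ofReal
          linarith
        · rw [indicator_of_notMem hx]
          have : Prod.mk x ⁻¹' {z : ℝ × ℝ | z.1 ∈ Icc a c ∧ z.2 - s * z.1 ∈ Icc p (p + t)} = ∅ := by
            ext y
            simp only [mem_preimage, mem_ofPred_eq, mem_empty_iff_false, iff_false, not_and]
            intro h
            exact absurd h hx
          rw [this]; simp
    _ = ENNReal.ofReal ((c - a) * t) := by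
        rw [lintegral_indicator measurableSet_Icc, setLIntegral_const, Real.volume_Icc,
          ← ENNReal.ofReal_mul ht, mul_comm]

/-! ## perturbation digits -/

noncomputable def uu (P i : ℕ) : ℝ := 2 * (1/3:ℝ)^(P+i+1)

lemma uu_nonneg (P i : ℕ) : 0 ≤ uu P i := by unfold uu; positivity

lemma uu_cell {P i J : ℕ} (h : i < J) {s : ℝ} (hs : s ∈ cantorSet) :
    uu P i + (1/3:ℝ)^(P+J) * s ∈ cantorSet := by
  obtain ⟨d, rfl⟩ := Nat.exists_eq_add_of_lt h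
  have := C_pow (C_two (C_pow hs d)) (P+i)
  convert this using 1
  unfold uu
  rw [show P + (i + d + 1) = (P + i) + d + 1 by ring, pow_succ, pow_succ, pow_add (1/3:ℝ) (P+i) d]
  ring

lemma uu_sep {P i j J : ℕ} (hij : i < j) (hj : j < J) :
    (1/3:ℝ)^(P+J) < uu P i - uu P j := by
  unfold uu
  have h1 : (1/3:ℝ)^(P+J) ≤ (1/3:ℝ)^(P+j+1) :=
    pow_le_pow_of_le_one (by norm_num) (by norm_num) (by omega)
  have h2 : (1/3:ℝ)^(P+j+1) * 3 ≤ (1/3:ℝ)^(P+i+1) := by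
    have : (1/3:ℝ)^(P+j) ≤ (1/3:ℝ)^(P+i+1) :=
      pow_le_pow_of_le_one (by norm_num) (by norm_num) (by omega)
    rw [pow_succ]
    linarith
  have h3 : 0 < (1/3:ℝ)^(P+j+1) := by positivity
  linarith

lemma uu_le {P i J : ℕ} (h : i < J) {s : ℝ} (hs : s ≤ 1) :
    uu P i + (1/3:ℝ)^(P+J) * s ≤ (1/3:ℝ)^P := by
  unfold uu
  have h1 : (1/3:ℝ)^(P+J) ≤ (1/3:ℝ)^(P+1) :=
    pow_le_pow_of_le_one (by norm_num) (by norm_num) (by omega)
  have h2 : (1/3:ℝ)^(P+i+1) ≤ (1/3:ℝ)^(P+1) :=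
    pow_le_pow_of_le_one (by norm_num) (by norm_num) (by omega)
  have h3 : 0 < (1/3:ℝ)^(P+J) := by positivity
  have h4 : (1/3:ℝ)^(P+1) * 3 = (1/3:ℝ)^P := by rw [pow_succ]; ring
  nlinarith

/-! ## normalised families -/

/-- normalised family of tubes: slopes `3^{-r}(p.1 + 3^{-m} s)`, `s` in the Cantor set, intercepts
in `[p.2, p.2 + 3^{-q}]`. -/
def NF (r : ℕ) (η : ℝ) (m q : ℕ) (T : Finset (ℝ × ℝ)) : Prop :=
  (∀ p ∈ T, ∀ s ∈ cantorSet, p.1 + (1/3:ℝ)^m * s ∈ cantorSet) ∧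
  (∀ p ∈ T, 0 ≤ p.2 ∧ p.2 + (1/3:ℝ)^q ≤ 1) ∧
  (∀ p ∈ T, ∀ p' ∈ T, p ≠ p' → (1/3:ℝ)^m < |p.1 - p'.1|) ∧
  volume {z : ℝ × ℝ | z.1 ∈ Icc (1/2:ℝ) (3/2) ∧ ∃ p ∈ T, ∃ s ∈ cantorSet,
    z.2 - (1/3:ℝ)^r * (p.1 + (1/3:ℝ)^m * s) * z.1 ∈ Icc p.2 (p.2 + (1/3:ℝ)^q)} ≤ ENNReal.ofReal η ∧
  volume {z : ℝ × ℝ | z.1 ∈ Icc (1/4:ℝ) (3/8) ∧ z.2 ∈ Icc (0:ℝ) 1 ∧ ∀ p ∈ T,
    z.2 - (1/3:ℝ)^r * p.1 * z.1 ∉ Icc p.2 (p.2 + (1/3:ℝ)^q)} ≤ ENNReal.ofReal η

/-- the tubes of a finite set of blocks -/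
def BT (n : ℕ) (k : ℝ) (s : Set (Om n × ℝ × ℝ)) : Set (ℝ × ℝ) :=
  ⋃ θ ∈ s, (fun p : ℝ × ℝ => (p.1, θ.2.2 + k * p.2 - 9 * k * p.1 * θ.2.1)) '' tb n θ.1

lemma BT_finite (n : ℕ) (k : ℝ) {s : Set (Om n × ℝ × ℝ)} (hs : s.Finite) : (BT n k s).Finite :=
  hs.biUnion fun θ _ => (tb_finite n θ.1).image _

lemma mem_Cv_iff {n : ℕ} {k : ℝ} (hk : 0 < k) (s : Set (Om n × ℝ × ℝ)) (z : ℝ × ℝ) :
    z ∈ (⋃ θ ∈ s, Cv n k θ) ↔ ∃ p ∈ BT n k s, p.2 ≤ z.2 - 9 * k * p.1 * z.1 ∧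
      z.2 - 9 * k * p.1 * z.1 < p.2 + k * (1/3:ℝ)^n := by
  constructor
  · intro hz
    simp only [mem_iUnion, exists_prop] at hz
    obtain ⟨θ, hθ, hz⟩ := hz
    unfold Cv at hz
    rw [mem_ofPred_eq, tb_spec] at hz
    obtain ⟨p, hp, h1, h2⟩ := hz
    refine ⟨_, mem_biUnion hθ ⟨p, hp, rfl⟩, ?_, ?_⟩
    · simp only
      rw [le_div_iff₀ hk] at h1
      nlinarith
    · simp only
      rw [div_lt_iff₀ hk] at h2
      nlinarith
  · rintro ⟨p', hp', h1, h2⟩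
    unfold BT at hp'
    simp only [mem_iUnion, exists_prop] at hp'
    obtain ⟨θ, hθ, p, hp, rfl⟩ := hp'
    simp only at h1 h2
    refine mem_biUnion hθ ?_
    unfold Cv
    rw [mem_ofPred_eq, tb_spec]
    refine ⟨p, hp, ?_, ?_⟩
    · rw [le_div_iff₀ hk]; nlinarith
    · rw [div_lt_iff₀ hk]; nlinarith

lemma BT_TP {n : ℕ} {k : ℝ} (hk : 0 < k) {s : Set (Om n × ℝ × ℝ)} (hs : ∀ θ ∈ s, θ.2 ∈ AD k)
    {p : ℝ × ℝ} (hp : p ∈ BT n k s) :
    (∀ s ∈ cantorSet, p.1 + (1/3:ℝ)^n * s ∈ cantorSet) ∧ 0 ≤ p.2 ∧ p.2 + k * (1/3:ℝ)^n ≤ 1 ∧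
    ∃ a : ℕ, p.1 = a * (1/3:ℝ)^n := by
  unfold BT at hp
  simp only [mem_iUnion, exists_prop] at hp
  obtain ⟨θ, hθ, p, hp, rfl⟩ := hp
  obtain ⟨h1, h2, h3, h4⟩ := tb_TP n θ.1 p hp
  obtain ⟨hx, hy⟩ := hs θ hθ
  have hp1 : p.1 ∈ cantorSet := by simpa using h1 0 C_zero
  have hp0 := C_nonneg hp1
  have hp1' := C_le hp1
  have hx0 : 0 ≤ θ.2.1 := by linarith [hx.1]
  have e1 : 0 ≤ 9 * k * p.1 * θ.2.1 := by positivity
  have e2 : 9 * k * p.1 * θ.2.1 ≤ 9 * k * 1 * (3/8) := by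
    gcongr
    exact hx.2
  have e3 : 0 ≤ k * p.2 := by positivity
  have e4 : k * (p.2 + (1/3:ℝ)^n) ≤ k * 1 := by gcongr
  refine ⟨h1, ?_, ?_, h4⟩
  · simp only; linarith [hy.1]
  · simp only; linarith [hy.2]

lemma finset_enum (T : Finset (ℝ × ℝ)) : ∃ f : ℝ × ℝ → ℕ, (∀ p ∈ T, f p < T.card) ∧
    ∀ p ∈ T, ∀ p' ∈ T, f p = f p' → p = p' := by
  classical
  refine ⟨fun p => if h : p ∈ T then (T.equivFin ⟨p, h⟩).val else 0, ?_, ?_⟩
  · intro p hp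
    simp only [hp, dite_true]
    exact (T.equivFin ⟨p, hp⟩).isLt
  · intro p hp p' hp' h
    simp only [hp, hp', dite_true] at h
    have := T.equivFin.injective (Fin.ext h)
    simpa using this

lemma exists_NF {η : ℝ} (hη : 0 < η) : ∃ r0 : ℕ, ∀ r ≥ r0, ∃ (m q : ℕ) (T : Finset (ℝ × ℝ)),
    1 ≤ q ∧ NF r η m q T := by
  classical
  obtain ⟨n, hn⟩ := covering (half_pos hη)
  obtain ⟨r0, hr0⟩ := exists_pow_lt_of_lt_one (show 0 < η/4 by positivity)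
    (show (1/3:ℝ) < 1 by norm_num)
  refine ⟨r0, fun r hr => ?_⟩
  set k : ℝ := (1/3:ℝ)^(r+2) with hkdef
  have hk : 0 < k := by positivity
  have hκ : 9 * k = (1/3:ℝ)^r := by rw [hkdef, pow_add]; norm_num; ring
  have hκη : (1/3:ℝ)^r < η/4 :=
    lt_of_le_of_lt (pow_le_pow_of_le_one (by norm_num) (by norm_num) hr) hr0
  obtain ⟨s, hsf, hs, hs1, hs2⟩ := hn k hk
  set T0 : Finset (ℝ × ℝ) := (BT_finite n k hsf).toFinset with hT0
  have hT0mem : ∀ p, p ∈ T0 ↔ p ∈ BT n k s := fun p => by rw [hT0, Set.Finite.mem_toFinset]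
  obtain ⟨f, hf1, hf2⟩ := finset_enum T0
  set J := T0.card with hJ
  obtain ⟨P0, hP0⟩ := exists_pow_lt_of_lt_one (show 0 < η/(8 * (J + 1)) by positivity)
    (show (1/3:ℝ) < 1 by norm_num)
  set P := P0 + 1 with hP
  have hPs : (1/3:ℝ)^P < η/(8 * (J + 1)) :=
    lt_of_le_of_lt (pow_le_pow_of_le_one (by norm_num) (by norm_num) (Nat.le_succ P0)) hP0
  have hPpos : 0 < (1/3:ℝ)^P := by positivity
  have hJP : (J:ℝ) * (1/3:ℝ)^P ≤ η/8 := by
    rw [lt_div_iff₀ (by positivity)] at hPs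
    nlinarith
  set q := r + 2 + n with hq
  have hw : k * (1/3:ℝ)^n = (1/3:ℝ)^q := by rw [hkdef, hq, pow_add (1/3:ℝ) (r+2) n]
  set m := n + (P + J) with hm
  set g : ℝ × ℝ → ℝ × ℝ := fun p => (p.1 + (1/3:ℝ)^n * uu P (f p), p.2) with hg
  refine ⟨m, q, T0.image g, by omega, ?_, ?_, ?_, ?_, ?_⟩
  · -- cells
    intro p' hp' s' hs'
    rw [Finset.mem_image] at hp'
    obtain ⟨p, hp, rfl⟩ := hp'
    have h1 := (BT_TP hk hs ((hT0mem p).mp hp)).1 _ (uu_cell (P := P) (hf1 p hp) hs')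
    convert h1 using 1
    simp only [hg, hm]
    rw [pow_add (1/3:ℝ) n (P+J)]
    ring
  · intro p' hp'
    rw [Finset.mem_image] at hp'
    obtain ⟨p, hp, rfl⟩ := hp'
    have h1 := BT_TP hk hs ((hT0mem p).mp hp)
    simp only [hg]
    rw [← hw]
    exact ⟨h1.2.1, h1.2.2.1⟩
  · -- separation
    intro a ha a' ha' hne
    rw [Finset.mem_image] at ha ha'
    obtain ⟨p, hp, rfl⟩ := ha
    obtain ⟨p', hp', rfl⟩ := ha'
    have hpp : p ≠ p' := fun h => hne (by rw [h])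
    have hff : f p ≠ f p' := fun h => hpp (hf2 p hp p' hp' h)
    have hn0 : 0 < (1/3:ℝ)^n := by positivity
    simp only [hg]
    rw [hm, pow_add (1/3:ℝ) n (P+J)]
    by_cases h1 : p.1 = p'.1
    · rw [h1]
      have e : p'.1 + (1/3:ℝ)^n * uu P (f p) - (p'.1 + (1/3:ℝ)^n * uu P (f p'))
          = (1/3:ℝ)^n * (uu P (f p) - uu P (f p')) := by ring
      rw [e, abs_mul, abs_of_pos hn0]
      gcongr
      rcases lt_or_gt_of_ne hff with h | h
      · exact (uu_sep h (hf1 p' hp')).trans_le (le_abs_self _)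
      · rw [abs_sub_comm]
        exact (uu_sep h (hf1 p hp)).trans_le (le_abs_self _)
    · obtain ⟨c, hc⟩ := (BT_TP hk hs ((hT0mem p).mp hp)).2.2.2
      obtain ⟨c', hc'⟩ := (BT_TP hk hs ((hT0mem p').mp hp')).2.2.2
      have hcc : (c:ℤ) ≠ (c':ℤ) := by
        intro h
        apply h1
        have : c = c' := by exact_mod_cast h
        rw [hc, hc', this]
      have h2 : (1:ℝ) ≤ |(c:ℝ) - c'| := by
        have : (1:ℤ) ≤ |(c:ℤ) - c'| := Int.one_le_abs (sub_ne_zero.mpr hcc)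
        exact_mod_cast this
      have hu1 : uu P (f p) ≤ (1/3:ℝ)^P := by
        have := uu_le (P := P) (hf1 p hp) zero_le_one
        simpa using this
      have hu2 : uu P (f p') ≤ (1/3:ℝ)^P := by
        have := uu_le (P := P) (hf1 p' hp') zero_le_one
        simpa using this
      have hP3 : (1/3:ℝ)^P ≤ 1/3 := by
        have : (1/3:ℝ)^P ≤ (1/3:ℝ)^1 := pow_le_pow_of_le_one (by norm_num) (by norm_num) (by omega)
        simpa using this
      have hPJ : (1/3:ℝ)^(P+J) ≤ 1/3 := by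
        have : (1/3:ℝ)^(P+J) ≤ (1/3:ℝ)^1 :=
          pow_le_pow_of_le_one (by norm_num) (by norm_num) (by omega)
        simpa using this
      have e : p.1 + (1/3:ℝ)^n * uu P (f p) - (p'.1 + (1/3:ℝ)^n * uu P (f p'))
          = (1/3:ℝ)^n * (((c:ℝ) - c') - (uu P (f p') - uu P (f p))) := by rw [hc, hc']; ring
      rw [e, abs_mul, abs_of_pos hn0]
      have h3 : |uu P (f p') - uu P (f p)| ≤ 1/3 := by
        rw [abs_le]
        constructor <;> linarith [uu_nonneg P (f p), uu_nonneg P (f p')]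
      have h4 : 2/3 ≤ |((c:ℝ) - c') - (uu P (f p') - uu P (f p))| := by
        have := abs_sub_abs_le_abs_sub ((c:ℝ) - c') (uu P (f p') - uu P (f p))
        linarith
      have : (1/3:ℝ)^(P+J) < |((c:ℝ) - c') - (uu P (f p') - uu P (f p))| := by linarith
      gcongr
  · -- single window
    have hsub : {z : ℝ × ℝ | z.1 ∈ Icc (1/2:ℝ) (3/2) ∧ ∃ p ∈ T0.image g, ∃ s ∈ cantorSet,
        z.2 - (1/3:ℝ)^r * (p.1 + (1/3:ℝ)^m * s) * z.1 ∈ Icc p.2 (p.2 + (1/3:ℝ)^q)}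
        ⊆ ((⋃ θ ∈ s, Cv n k θ) ∩ X1S) ∪ ⋃ p ∈ T0, {z : ℝ × ℝ | z.1 ∈ Icc (1/2:ℝ) (3/2) ∧
          z.2 - (1/3:ℝ)^r * p.1 * z.1 ∈ Icc (p.2 + (1/3:ℝ)^q)
            (p.2 + (1/3:ℝ)^q + 2 * (1/3:ℝ)^P)} := by
      rintro z ⟨hz1, p', hp', s', hs', hz2, hz3⟩
      rw [Finset.mem_image] at hp'
      obtain ⟨p, hp, rfl⟩ := hp'
      simp only [hg] at hz2 hz3
      have hx0 : 0 ≤ z.1 := by linarith [hz1.1]
      have hu := uu_le (P := P) (hf1 p hp) (C_le hs')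
      have hu0 : 0 ≤ uu P (f p) + (1/3:ℝ)^(P+J) * s' := by
        have := uu_nonneg P (f p)
        have := C_nonneg hs'
        positivity
      have e : p.1 + (1/3:ℝ)^n * uu P (f p) + (1/3:ℝ)^m * s'
          = p.1 + (1/3:ℝ)^n * (uu P (f p) + (1/3:ℝ)^(P+J) * s') := by
        rw [hm, pow_add (1/3:ℝ) n (P+J)]; ring
      rw [e] at hz2 hz3
      set ζ := uu P (f p) + (1/3:ℝ)^(P+J) * s' with hζ
      have e2 : (1/3:ℝ)^r * (p.1 + (1/3:ℝ)^n * ζ) * z.1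
          = (1/3:ℝ)^r * p.1 * z.1 + (1/3:ℝ)^r * ((1/3:ℝ)^n * ζ) * z.1 := by ring
      rw [e2] at hz2 hz3
      have h5 : 0 ≤ (1/3:ℝ)^r * ((1/3:ℝ)^n * ζ) * z.1 := by positivity
      have h6 : (1/3:ℝ)^r * ((1/3:ℝ)^n * ζ) * z.1 ≤ 1 * (1 * (1/3:ℝ)^P) * 2 := by
        have a1 : (1/3:ℝ)^r ≤ 1 := pow_le_one₀ (by norm_num) (by norm_num)
        have a2 : (1/3:ℝ)^n ≤ 1 := pow_le_one₀ (by norm_num) (by norm_num)
        gcongr
        linarith [hz1.2]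
      by_cases h7 : z.2 - (1/3:ℝ)^r * p.1 * z.1 < p.2 + (1/3:ℝ)^q
      · left
        refine ⟨(mem_Cv_iff hk s z).mpr ⟨p, (hT0mem p).mp hp, ?_, ?_⟩, hz1, mem_univ _⟩
        · rw [hκ]; linarith
        · rw [hκ, hw]; exact h7
      · right
        push Not at h7
        exact mem_biUnion hp ⟨hz1, h7, by linarith⟩
    refine (measure_mono hsub).trans ((measure_union_le _ _).trans ?_)
    have h8 : volume (⋃ p ∈ T0, {z : ℝ × ℝ | z.1 ∈ Icc (1/2:ℝ) (3/2) ∧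
          z.2 - (1/3:ℝ)^r * p.1 * z.1 ∈ Icc (p.2 + (1/3:ℝ)^q)
            (p.2 + (1/3:ℝ)^q + 2 * (1/3:ℝ)^P)}) ≤ ENNReal.ofReal (η/4) := by
      refine (measure_biUnion_finset_le _ _).trans ?_
      refine (Finset.sum_le_sum fun p _ => strip_vol (a := 1/2) (c := 3/2) _ _
        (by positivity : (0:ℝ) ≤ 2 * (1/3:ℝ)^P)).trans ?_
      rw [Finset.sum_const, nsmul_eq_mul, ← hJ, ← ENNReal.ofReal_natCast,
        ← ENNReal.ofReal_mul (Nat.cast_nonneg _)]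
      apply ENNReal.ofReal_le_ofReal
      linarith
    calc volume ((⋃ θ ∈ s, Cv n k θ) ∩ X1S) + _ ≤ ENNReal.ofReal (η/2) + ENNReal.ofReal (η/4) :=
          add_le_add hs1 h8
      _ = ENNReal.ofReal (η/2 + η/4) := (ENNReal.ofReal_add (by positivity) (by positivity)).symm
      _ ≤ ENNReal.ofReal η := ENNReal.ofReal_le_ofReal (by linarith)
  · -- double window
    have hsub : {z : ℝ × ℝ | z.1 ∈ Icc (1/4:ℝ) (3/8) ∧ z.2 ∈ Icc (0:ℝ) 1 ∧ ∀ p ∈ T0.image g,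
        z.2 - (1/3:ℝ)^r * p.1 * z.1 ∉ Icc p.2 (p.2 + (1/3:ℝ)^q)}
        ⊆ (({z : ℝ × ℝ | z.1 ∈ Icc (1/4:ℝ) (3/8) ∧ z.2 - 0 * z.1 ∈ Icc (0:ℝ) (0 + 18 * k)}
          ∪ {z : ℝ × ℝ | z.1 ∈ Icc (1/4:ℝ) (3/8) ∧ z.2 - 0 * z.1 ∈ Icc (1 - 9 * k) (1 - 9 * k + 9 * k)})
          ∪ (GS k \ ⋃ θ ∈ s, Cv n k θ)) ∪ ⋃ p ∈ T0, {z : ℝ × ℝ | z.1 ∈ Icc (1/4:ℝ) (3/8) ∧
          z.2 - (1/3:ℝ)^r * p.1 * z.1 ∈ Icc p.2 (p.2 + (1/3:ℝ)^P)} := by
      rintro z ⟨hz1, hz2, hz3⟩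
      by_cases h1 : z.2 < 18 * k
      · left; left; left
        exact ⟨hz1, by simpa using hz2.1, by simpa using h1.le⟩
      by_cases h2 : 1 - 9 * k < z.2
      · left; left; right
        exact ⟨hz1, by simpa using h2.le, by simpa using hz2.2⟩
      push Not at h1 h2
      by_cases h3 : z ∈ ⋃ θ ∈ s, Cv n k θ
      · right
        obtain ⟨p, hp, h4, h5⟩ := (mem_Cv_iff hk s z).mp h3
        rw [← hT0mem] at hp
        rw [hκ] at h4 h5
        rw [hw] at h5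
        have h6 := hz3 (g p) (Finset.mem_image_of_mem g hp)
        simp only [hg, mem_Icc, not_and_or, not_le] at h6
        have hx0 : 0 ≤ z.1 := by linarith [hz1.1]
        have hu0 := uu_nonneg P (f p)
        have hu : uu P (f p) ≤ (1/3:ℝ)^P := by
          have := uu_le (P := P) (hf1 p hp) zero_le_one
          simpa using this
        have e2 : (1/3:ℝ)^r * (p.1 + (1/3:ℝ)^n * uu P (f p)) * z.1
          = (1/3:ℝ)^r * p.1 * z.1 + (1/3:ℝ)^r * ((1/3:ℝ)^n * uu P (f p)) * z.1 := by ring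
        rw [e2] at h6
        have h7 : 0 ≤ (1/3:ℝ)^r * ((1/3:ℝ)^n * uu P (f p)) * z.1 := by positivity
        have h8 : (1/3:ℝ)^r * ((1/3:ℝ)^n * uu P (f p)) * z.1 ≤ 1 * (1 * (1/3:ℝ)^P) * 1 := by
          have a1 : (1/3:ℝ)^r ≤ 1 := pow_le_one₀ (by norm_num) (by norm_num)
          have a2 : (1/3:ℝ)^n ≤ 1 := pow_le_one₀ (by norm_num) (by norm_num)
          gcongr
          linarith [hz1.2]
        refine mem_biUnion hp ⟨hz1, h4, ?_⟩
        rcases h6 with h6 | h6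
        · linarith
        · linarith
      · left; right
        exact ⟨⟨hz1, h1, h2⟩, h3⟩
    refine (measure_mono hsub).trans ((measure_union_le _ _).trans ?_)
    have h8 : volume (⋃ p ∈ T0, {z : ℝ × ℝ | z.1 ∈ Icc (1/4:ℝ) (3/8) ∧
          z.2 - (1/3:ℝ)^r * p.1 * z.1 ∈ Icc p.2 (p.2 + (1/3:ℝ)^P)}) ≤ ENNReal.ofReal (η/8) := by
      refine (measure_biUnion_finset_le _ _).trans ?_
      refine (Finset.sum_le_sum fun p _ => strip_vol (a := 1/4) (c := 3/8) _ _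
        (by positivity : (0:ℝ) ≤ (1/3:ℝ)^P)).trans ?_
      rw [Finset.sum_const, nsmul_eq_mul, ← hJ, ← ENNReal.ofReal_natCast,
        ← ENNReal.ofReal_mul (Nat.cast_nonneg _)]
      apply ENNReal.ofReal_le_ofReal
      linarith
    have h9 := strip_vol (a := 1/4) (c := 3/8) 0 0 (by positivity : (0:ℝ) ≤ 18 * k)
    have h10 := strip_vol (a := 1/4) (c := 3/8) 0 (1 - 9 * k) (by positivity : (0:ℝ) ≤ 9 * k)
    have h11 := (measure_union_le (μ := (volume : Measure (ℝ × ℝ)))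
      {z : ℝ × ℝ | z.1 ∈ Icc (1/4:ℝ) (3/8) ∧ z.2 - 0 * z.1 ∈ Icc (0:ℝ) (0 + 18 * k)}
      {z : ℝ × ℝ | z.1 ∈ Icc (1/4:ℝ) (3/8) ∧ z.2 - 0 * z.1 ∈ Icc (1 - 9 * k) (1 - 9 * k + 9 * k)})
    have h12 := h11.trans (add_le_add h9 h10)
    refine (add_le_add ((measure_union_le _ _).trans (add_le_add h12 hs2)) h8).trans ?_
    rw [← ENNReal.ofReal_add (by positivity) (by positivity),
      ← ENNReal.ofReal_add (by positivity) (by positivity),
      ← ENNReal.ofReal_add (by positivity) (by positivity)]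
    apply ENNReal.ofReal_le_ofReal
    have : 9 * k < η/4 := by rw [hκ]; exact hκη
    linarith

end Pool.Agent.Q174.CD
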