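import Mathlib

/-!
# Random sticky configurations of tubes with Cantor slopes (helper file)

Averages over a finite probability space of sticky configurations, first and second moments and
the critical percolation bound.
-/

open MeasureTheory Set

namespace Pool.Agent.Q174.CD

/-! ## finite averages -/

/-- average over a finite type -/
noncomputable def av {α : Type} [Fintype α] (f : α → ℝ) : ℝ := (∑ a, f a) / (Fintype.card α : ℝ)

section av
variable {α β : Type} [Fintype α] [Fintype β]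

lemma av_add (f g : α → ℝ) : av (fun a => f a + g a) = av f + av g := by
  simp only [av, Finset.sum_add_distrib, add_div]

lemma av_sub (f g : α → ℝ) : av (fun a => f a - g a) = av f - av g := by
  simp only [av, Finset.sum_sub_distrib, sub_div]

lemma av_mul_left (c : ℝ) (f : α → ℝ) : av (fun a => c * f a) = c * av f := by
  simp only [av, ← Finset.mul_sum, mul_div_assoc]

lemma av_mul_right (c : ℝ) (f : α → ℝ) : av (fun a => f a * c) = av f * c := by
  simp only [av, ← Finset.sum_mul, mul_div_right_comm]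

lemma av_const [Nonempty α] (c : ℝ) : av (fun _ : α => c) = c := by
  have h : (Fintype.card α : ℝ) ≠ 0 := by exact_mod_cast Fintype.card_ne_zero
  simp only [av, Finset.sum_const, Finset.card_univ, nsmul_eq_mul]
  field_simp

lemma av_mono {f g : α → ℝ} (h : ∀ a, f a ≤ g a) : av f ≤ av g := by
  unfold av
  gcongr with a
  exact h a

lemma av_nonneg {f : α → ℝ} (h : ∀ a, 0 ≤ f a) : 0 ≤ av f := by
  unfold av
  exact div_nonneg (Finset.sum_nonneg fun a _ => h a) (Nat.cast_nonneg _)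

lemma av_prod (f : α × β → ℝ) : av f = av (fun a => av fun b => f (a, b)) := by
  simp only [av, Fintype.sum_prod_type, Fintype.card_prod, Nat.cast_mul, ← Finset.sum_div]
  rw [div_div, mul_comm]

lemma exists_av_le [Nonempty α] (f : α → ℝ) : ∃ a, av f ≤ f a := by
  by_contra hne
  push Not at hne
  have h1 : (∑ a, f a) < ∑ _a : α, av f :=
    Finset.sum_lt_sum_of_nonempty Finset.univ_nonempty fun a _ => hne a
  have h : (0:ℝ) < (Fintype.card α : ℝ) := by exact_mod_cast Fintype.card_pos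
  simp only [Finset.sum_const, Finset.card_univ, nsmul_eq_mul] at h1
  unfold av at h1
  rw [mul_div_cancel₀ _ h.ne'] at h1
  exact lt_irrefl _ h1

lemma av_bool (f : Bool → ℝ) : av f = (f false + f true) / 2 := by
  simp [av, add_comm]

end av

/-! ## configurations -/

def Om : ℕ → Type
  | 0 => Unit
  | n+1 => (Bool × Om n) × (Bool × Om n) × (Bool × Om n)

instance instFO : ∀ n, Fintype (Om n)
  | 0 => inferInstanceAs (Fintype Unit)
  | n+1 => letI := instFO n; inferInstanceAs (Fintype ((Bool × Om n) × (Bool × Om n) × (Bool × Om n)))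

instance instNO : ∀ n, Nonempty (Om n)
  | 0 => inferInstanceAs (Nonempty Unit)
  | n+1 => letI := instNO n; inferInstanceAs (Nonempty ((Bool × Om n) × (Bool × Om n) × (Bool × Om n)))

noncomputable def cv (b : Bool) : ℝ := if b then 1 else 0

noncomputable def NN : (n : ℕ) → Om n → ℝ → ℝ → ℝ
  | 0, _, _, u => if 0 ≤ u ∧ u < 1 then 1 else 0
  | n+1, w, X, u => NN n (w.1).2 X (3 * u - 2 * cv (w.1).1 * X)
      + NN n (w.2.1).2 X (3 * u - 1 - 2 * cv (w.2.1).1 * X)
      + NN n (w.2.2).2 X (3 * u - 2 - 2 * cv (w.2.2).1 * X)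

lemma cv_nonneg (b : Bool) : 0 ≤ cv b := by unfold cv; split_ifs <;> norm_num
lemma cv_le (b : Bool) : cv b ≤ 1 := by unfold cv; split_ifs <;> norm_num

lemma NN_nonneg : ∀ (n : ℕ) (w : Om n) (X u : ℝ), 0 ≤ NN n w X u
  | 0, _, _, u => by simp only [NN]; split_ifs <;> norm_num
  | n+1, w, X, u => by
      simp only [NN]
      have h1 := NN_nonneg n (w.1).2 X (3 * u - 2 * cv (w.1).1 * X)
      have h2 := NN_nonneg n (w.2.1).2 X (3 * u - 1 - 2 * cv (w.2.1).1 * X)
      have h3 := NN_nonneg n (w.2.2).2 X (3 * u - 2 - 2 * cv (w.2.2).1 * X)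
      linarith

lemma NN_zero {X : ℝ} (hX : 0 ≤ X) : ∀ (n : ℕ) (w : Om n) (u : ℝ), (u < 0 ∨ 1 + X ≤ u) →
    NN n w X u = 0
  | 0, _, u, h => by
      simp only [NN]
      rw [if_neg]
      rintro ⟨h1, h2⟩
      rcases h with h | h <;> linarith
  | n+1, w, u, h => by
      simp only [NN]
      have e1 := mul_nonneg (cv_nonneg (w.1).1) hX
      have e2 := mul_nonneg (cv_nonneg (w.2.1).1) hX
      have e3 := mul_nonneg (cv_nonneg (w.2.2).1) hX
      have f1 := mul_le_mul_of_nonneg_right (cv_le (w.1).1) hX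
      have f2 := mul_le_mul_of_nonneg_right (cv_le (w.2.1).1) hX
      have f3 := mul_le_mul_of_nonneg_right (cv_le (w.2.2).1) hX
      rw [NN_zero hX n (w.1).2 _ (by rcases h with h | h; · left; linarith
                                     · right; linarith),
        NN_zero hX n (w.2.1).2 _ (by rcases h with h | h; · left; linarith
                                     · right; linarith),
        NN_zero hX n (w.2.2).2 _ (by rcases h with h | h; · left; linarith
                                     · right; linarith)]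
      norm_num

/-- indicator of positivity -/
noncomputable def pos1 (t : ℝ) : ℝ := if 0 < t then 1 else 0

lemma pos1_nonneg (t : ℝ) : 0 ≤ pos1 t := by unfold pos1; split_ifs <;> norm_num
lemma pos1_le (t : ℝ) : pos1 t ≤ 1 := by unfold pos1; split_ifs <;> norm_num

lemma pos1_add3 {a b c : ℝ} (ha : 0 ≤ a) (hb : 0 ≤ b) (hc : 0 ≤ c) :
    pos1 (a + b + c) = 1 - (1 - pos1 a) * (1 - pos1 b) * (1 - pos1 c) := by
  unfold pos1
  rcases ha.eq_or_lt with h1 | h1
  · rcases hb.eq_or_lt with h2 | h2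
    · rcases hc.eq_or_lt with h3 | h3
      · simp [← h1, ← h2, ← h3]
      · simp [← h1, ← h2, h3]
    · have : 0 < a + b + c := by linarith
      simp [this, h2]
  · have : 0 < a + b + c := by linarith
    simp [this, h1]

section av3
variable {α : Type} [Fintype α] [Nonempty α]

lemma av3_lin (A B C : α → ℝ) :
    av (fun a => av fun b => av fun c => A a + B b + C c) = av A + av B + av C := by
  have h1 : ∀ a b, av (fun c => A a + B b + C c) = A a + B b + av C := by
    intro a b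
    rw [av_add, av_const]
  have h2 : ∀ a, av (fun b => A a + B b + av C) = A a + av B + av C := by
    intro a
    rw [av_add, av_add, av_const, av_const]
  simp only [h1, h2]
  rw [av_add, av_add, av_const, av_const]

lemma av3_sq (A B C : α → ℝ) :
    av (fun a => av fun b => av fun c => (A a + B b + C c) ^ 2)
      = av (fun a => A a ^ 2) + av (fun a => B a ^ 2) + av (fun a => C a ^ 2)
        + 2 * (av A * av B + av A * av C + av B * av C) := by
  have h1 : ∀ a b, av (fun c => (A a + B b + C c) ^ 2)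
      = (A a + B b) ^ 2 + (2 * (A a + B b)) * av C + av (fun c => C c ^ 2) := by
    intro a b
    have : (fun c => (A a + B b + C c) ^ 2)
        = fun c => ((A a + B b) ^ 2 + (2 * (A a + B b)) * C c) + C c ^ 2 := by
      funext c; ring
    rw [this, av_add, av_add, av_const, av_mul_left]
  have h2 : ∀ a, av (fun b => (A a + B b) ^ 2 + (2 * (A a + B b)) * av C + av (fun c => C c ^ 2))
      = A a ^ 2 + (2 * A a) * av B + av (fun b => B b ^ 2) + 2 * A a * av C + 2 * av B * av C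
        + av (fun c => C c ^ 2) := by
    intro a
    have : (fun b => (A a + B b) ^ 2 + (2 * (A a + B b)) * av C + av (fun c => C c ^ 2))
        = fun b => (A a ^ 2 + 2 * A a * av C + av (fun c => C c ^ 2))
            + (2 * A a + 2 * av C) * B b + B b ^ 2 := by
      funext b; ring
    rw [this, av_add, av_add, av_const, av_mul_left]
    ring
  simp only [h1, h2]
  have : (fun a => A a ^ 2 + (2 * A a) * av B + av (fun b => B b ^ 2) + 2 * A a * av C
        + 2 * av B * av C + av (fun c => C c ^ 2))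
      = fun a => (av (fun b => B b ^ 2) + 2 * av B * av C + av (fun c => C c ^ 2))
        + (2 * av B + 2 * av C) * A a + A a ^ 2 := by
    funext a; ring
  rw [this, av_add, av_add, av_const, av_mul_left]
  ring

lemma av3_prod (A B C : α → ℝ) :
    av (fun a => av fun b => av fun c => 1 - (1 - A a) * (1 - B b) * (1 - C c))
      = 1 - (1 - av A) * (1 - av B) * (1 - av C) := by
  have h1 : ∀ a b, av (fun c => 1 - (1 - A a) * (1 - B b) * (1 - C c))
      = 1 - (1 - A a) * (1 - B b) * (1 - av C) := by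
    intro a b
    rw [av_sub, av_const, av_mul_left, av_sub, av_const]
  have h2 : ∀ a, av (fun b => 1 - (1 - A a) * (1 - B b) * (1 - av C))
      = 1 - (1 - A a) * (1 - av B) * (1 - av C) := by
    intro a
    rw [av_sub, av_const, av_mul_right, av_mul_left, av_sub, av_const]
  simp only [h1, h2]
  rw [av_sub, av_const, av_mul_right, av_mul_right, av_sub, av_const]

end av3

lemma av_succ (n : ℕ) (F : Om (n+1) → ℝ) :
    av F = av (fun a : Bool × Om n => av fun b : Bool × Om n => av fun c : Bool × Om n =>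
      F (show Om (n+1) from (a, b, c))) := by
  refine (av_prod (α := Bool × Om n) (β := (Bool × Om n) × (Bool × Om n)) F).trans ?_
  congr 1
  funext a
  exact av_prod (α := Bool × Om n) (β := Bool × Om n) (fun p => F (a, p))

lemma av_pair (n : ℕ) (f : ℝ → ℝ) (X t : ℝ) :
    av (fun a : Bool × Om n => f (NN n a.2 X (t - 2 * cv a.1 * X)))
      = (av (fun w => f (NN n w X t)) + av (fun w => f (NN n w X (t - 2 * X)))) / 2 := by
  rw [av_prod, av_bool]
  simp [cv]

/-- covering probability -/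
noncomputable def pp (n : ℕ) (X u : ℝ) : ℝ := av (fun w : Om n => pos1 (NN n w X u))
/-- first moment -/
noncomputable def ee (n : ℕ) (X u : ℝ) : ℝ := av (fun w : Om n => NN n w X u)
/-- second moment -/
noncomputable def rr (n : ℕ) (X u : ℝ) : ℝ := av (fun w : Om n => NN n w X u ^ 2)

lemma pp_succ (n : ℕ) (X u : ℝ) : pp (n+1) X u =
    1 - (1 - (pp n X (3*u) + pp n X (3*u - 2*X)) / 2)
      * (1 - (pp n X (3*u-1) + pp n X (3*u - 1 - 2*X)) / 2)
      * (1 - (pp n X (3*u-2) + pp n X (3*u - 2 - 2*X)) / 2) := by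
  unfold pp
  rw [av_succ]
  simp only [NN]
  simp only [pos1_add3 (NN_nonneg _ _ _ _) (NN_nonneg _ _ _ _) (NN_nonneg _ _ _ _)]
  rw [av3_prod (fun a : Bool × Om n => pos1 (NN n a.2 X (3 * u - 2 * cv a.1 * X)))
    (fun a : Bool × Om n => pos1 (NN n a.2 X (3 * u - 1 - 2 * cv a.1 * X)))
    (fun a : Bool × Om n => pos1 (NN n a.2 X (3 * u - 2 - 2 * cv a.1 * X))),
    av_pair, av_pair, av_pair]

lemma ee_succ (n : ℕ) (X u : ℝ) : ee (n+1) X u =
    (ee n X (3*u) + ee n X (3*u - 2*X)) / 2 + (ee n X (3*u-1) + ee n X (3*u - 1 - 2*X)) / 2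
      + (ee n X (3*u-2) + ee n X (3*u - 2 - 2*X)) / 2 := by
  unfold ee
  rw [av_succ]
  simp only [NN]
  rw [av3_lin (fun a : Bool × Om n => (NN n a.2 X (3 * u - 2 * cv a.1 * X)))
    (fun a : Bool × Om n => (NN n a.2 X (3 * u - 1 - 2 * cv a.1 * X)))
    (fun a : Bool × Om n => (NN n a.2 X (3 * u - 2 - 2 * cv a.1 * X)))]
  rw [av_pair n (fun t => t), av_pair n (fun t => t), av_pair n (fun t => t)]

lemma rr_succ (n : ℕ) (X u : ℝ) : rr (n+1) X u =
    (rr n X (3*u) + rr n X (3*u - 2*X)) / 2 + (rr n X (3*u-1) + rr n X (3*u - 1 - 2*X)) / 2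
      + (rr n X (3*u-2) + rr n X (3*u - 2 - 2*X)) / 2
      + 2 * ((ee n X (3*u) + ee n X (3*u - 2*X)) / 2 * ((ee n X (3*u-1) + ee n X (3*u - 1 - 2*X)) / 2)
        + (ee n X (3*u) + ee n X (3*u - 2*X)) / 2 * ((ee n X (3*u-2) + ee n X (3*u - 2 - 2*X)) / 2)
        + (ee n X (3*u-1) + ee n X (3*u - 1 - 2*X)) / 2
          * ((ee n X (3*u-2) + ee n X (3*u - 2 - 2*X)) / 2)) := by
  unfold rr ee
  rw [av_succ]
  simp only [NN]
  rw [av3_sq (fun a : Bool × Om n => (NN n a.2 X (3 * u - 2 * cv a.1 * X)))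
    (fun a : Bool × Om n => (NN n a.2 X (3 * u - 1 - 2 * cv a.1 * X)))
    (fun a : Bool × Om n => (NN n a.2 X (3 * u - 2 - 2 * cv a.1 * X)))]
  rw [av_pair n (fun t => t), av_pair n (fun t => t), av_pair n (fun t => t),
    av_pair n (fun t => t ^ 2), av_pair n (fun t => t ^ 2), av_pair n (fun t => t ^ 2)]

lemma pp_nonneg (n : ℕ) (X u : ℝ) : 0 ≤ pp n X u := av_nonneg fun _ => pos1_nonneg _
lemma ee_nonneg (n : ℕ) (X u : ℝ) : 0 ≤ ee n X u := av_nonneg fun _ => NN_nonneg _ _ _ _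
lemma rr_nonneg (n : ℕ) (X u : ℝ) : 0 ≤ rr n X u := av_nonneg fun _ => sq_nonneg _

lemma pp_le (n : ℕ) (X u : ℝ) : pp n X u ≤ 1 :=
  (av_mono fun _ => pos1_le _).trans_eq (av_const 1)

lemma pp_zero {X : ℝ} (hX : 0 ≤ X) (n : ℕ) (u : ℝ) (h : u < 0 ∨ 1 + X ≤ u) : pp n X u = 0 := by
  unfold pp
  simp only [NN_zero hX n _ u h]
  rw [av_const]
  simp [pos1]

lemma ee_zero {X : ℝ} (hX : 0 ≤ X) (n : ℕ) (u : ℝ) (h : u < 0 ∨ 1 + X ≤ u) : ee n X u = 0 := by
  unfold ee
  simp only [NN_zero hX n _ u h]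
  rw [av_const]

/-! ## the transfer operator -/

/-- transfer operator -/
noncomputable def T (X : ℝ) (g : ℝ → ℝ) (u : ℝ) : ℝ :=
  (g (3*u) + g (3*u-2*X) + g (3*u-1) + g (3*u-1-2*X) + g (3*u-2) + g (3*u-2-2*X)) / 2

lemma T_mono (X : ℝ) {g h : ℝ → ℝ} (H : ∀ u, g u ≤ h u) (u : ℝ) : T X g u ≤ T X h u := by
  unfold T
  have := H (3*u); have := H (3*u-2*X); have := H (3*u-1); have := H (3*u-1-2*X)
  have := H (3*u-2); have := H (3*u-2-2*X)
  linarith

lemma Tit_mono (X : ℝ) (k : ℕ) {g h : ℝ → ℝ} (H : ∀ u, g u ≤ h u) (u : ℝ) :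
    (T X)^[k] g u ≤ (T X)^[k] h u := by
  induction k generalizing g h with
  | zero => exact H u
  | succ k ih =>
    rw [Function.iterate_succ_apply, Function.iterate_succ_apply]
    exact ih (T_mono X H)

lemma Tit_lin (X : ℝ) (k : ℕ) (a b : ℝ) (g h : ℝ → ℝ) :
    (T X)^[k] (fun u => a * g u + b * h u) = fun u => a * (T X)^[k] g u + b * (T X)^[k] h u := by
  induction k generalizing g h with
  | zero => rfl
  | succ k ih =>
    rw [Function.iterate_succ_apply, Function.iterate_succ_apply, Function.iterate_succ_apply, ← ih]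
    congr 1
    funext u
    unfold T
    ring

lemma Tit_nonneg (X : ℝ) (k : ℕ) {g : ℝ → ℝ} (H : ∀ u, 0 ≤ g u) (u : ℝ) : 0 ≤ (T X)^[k] g u := by
  induction k generalizing g with
  | zero => exact H u
  | succ k ih =>
    rw [Function.iterate_succ_apply]
    refine ih fun v => ?_
    unfold T
    have := H (3*v); have := H (3*v-2*X); have := H (3*v-1); have := H (3*v-1-2*X)
    have := H (3*v-2); have := H (3*v-2-2*X)
    linarith

/-- bounded periodization -/
def PB (K : ℝ) (g : ℝ → ℝ) : Prop := ∀ (A : Finset ℤ) (u : ℝ), ∑ i ∈ A, g (u + i) ≤ K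

lemma PB_le {K : ℝ} {g : ℝ → ℝ} (h : PB K g) (u : ℝ) : g u ≤ K := by
  simpa using h {0} u

lemma PB_three {K : ℝ} {g : ℝ → ℝ} (h : PB K g) (A : Finset ℤ) (u c : ℝ) :
    ∑ i ∈ A, (g (3 * (u + i) - c) + g (3 * (u + i) - 1 - c) + g (3 * (u + i) - 2 - c)) ≤ K := by
  have h1 : ∑ i ∈ A, (g (3 * (u + i) - c) + g (3 * (u + i) - 1 - c) + g (3 * (u + i) - 2 - c))
      = ∑ p ∈ A ×ˢ Finset.range 3, g ((3 * u - c) + ((3 * p.1 - (p.2 : ℤ) : ℤ) : ℝ)) := by
    rw [Finset.sum_product]
    refine Finset.sum_congr rfl fun i _ => ?_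
    rw [Finset.sum_range_succ, Finset.sum_range_succ, Finset.sum_range_succ, Finset.sum_range_zero]
    push_cast
    rw [show 3 * (u + (i:ℝ)) - c = 3 * u - c + (3 * (i:ℝ) - 0) by ring,
      show 3 * (u + (i:ℝ)) - 1 - c = 3 * u - c + (3 * (i:ℝ) - 1) by ring,
      show 3 * (u + (i:ℝ)) - 2 - c = 3 * u - c + (3 * (i:ℝ) - 2) by ring]
    ring
  have h2 : ∑ p ∈ A ×ˢ Finset.range 3, g ((3 * u - c) + ((3 * p.1 - (p.2 : ℤ) : ℤ) : ℝ))
      = ∑ k ∈ (A ×ˢ Finset.range 3).image (fun p : ℤ × ℕ => 3 * p.1 - (p.2 : ℤ)),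
          g ((3 * u - c) + (k : ℝ)) := by
    rw [Finset.sum_image]
    rintro ⟨i, j⟩ hp ⟨i', j'⟩ hp' heq
    simp only [Finset.coe_product, Set.mem_prod, Finset.mem_coe, Finset.mem_range] at hp hp'
    simp only at heq
    have : i = i' := by omega
    have : j = j' := by omega
    simp [*]
  rw [h1, h2]
  exact h _ _

lemma PB_T {K : ℝ} {g : ℝ → ℝ} (X : ℝ) (h : PB K g) : PB K (T X g) := by
  intro A u
  have h1 := PB_three h A u 0
  have h2 := PB_three h A u (2 * X)
  have : ∑ i ∈ A, T X g (u + i) = (∑ i ∈ A, (g (3 * (u + i) - 0) + g (3 * (u + i) - 1 - 0)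
      + g (3 * (u + i) - 2 - 0)) + ∑ i ∈ A, (g (3 * (u + i) - 2 * X) + g (3 * (u + i) - 1 - 2 * X)
      + g (3 * (u + i) - 2 - 2 * X))) / 2 := by
    rw [← Finset.sum_add_distrib, Finset.sum_div]
    refine Finset.sum_congr rfl fun i _ => ?_
    unfold T
    simp only [sub_zero]
    ring
  rw [this]
  linarith

lemma PB_Tit {K : ℝ} {g : ℝ → ℝ} (X : ℝ) (k : ℕ) (h : PB K g) : PB K ((T X)^[k] g) := by
  induction k generalizing g with
  | zero => exact h
  | succ k ih =>
    rw [Function.iterate_succ_apply]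
    exact ih (PB_T X h)

/-- indicator of `[0, L)` -/
noncomputable def SS (L : ℝ) (u : ℝ) : ℝ := if 0 ≤ u ∧ u < L then 1 else 0

lemma SS_nonneg (L u : ℝ) : 0 ≤ SS L u := by unfold SS; split_ifs <;> norm_num

lemma PB_SS {L : ℝ} : PB (⌈L⌉₊ : ℝ) (SS L) := by
  intro A u
  unfold SS
  rw [← Finset.sum_filter, Finset.sum_const, nsmul_eq_mul, mul_one]
  have hsub : A.filter (fun i : ℤ => 0 ≤ u + (i:ℝ) ∧ u + (i:ℝ) < L)
      ⊆ Finset.Ico ⌈-u⌉ (⌈-u⌉ + ⌈L⌉₊) := by
    intro i hi
    rw [Finset.mem_filter] at hi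
    rw [Finset.mem_Ico]
    obtain ⟨-, h1, h2⟩ := hi
    constructor
    · exact Int.ceil_le.mpr (by linarith)
    · have h3 : (i : ℝ) < (⌈-u⌉ : ℝ) + (⌈L⌉₊ : ℝ) := by
        have := Int.le_ceil (-u)
        have := Nat.le_ceil L
        linarith
      exact_mod_cast h3
  have hc := Finset.card_le_card hsub
  have : (Finset.Ico ⌈-u⌉ (⌈-u⌉ + (⌈L⌉₊ : ℤ))).card = ⌈L⌉₊ := by
    rw [Int.card_Ico]; simp
  rw [this] at hc
  exact_mod_cast hc

lemma ee_zero_eq (X : ℝ) : ee 0 X = SS 1 := by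
  funext u
  unfold ee
  simp only [NN, SS]
  rw [av_const]

lemma ee_succ_eq (n : ℕ) (X : ℝ) : ee (n+1) X = T X (ee n X) := by
  funext u
  rw [ee_succ]
  unfold T
  ring

lemma ee_PB (n : ℕ) (X : ℝ) : PB 1 (ee n X) := by
  induction n with
  | zero =>
    rw [ee_zero_eq]
    have := PB_SS (L := 1)
    simpa using this
  | succ n ih =>
    rw [ee_succ_eq]
    exact PB_T X ih

lemma ee_le_one (n : ℕ) (X u : ℝ) : ee n X u ≤ 1 := PB_le (ee_PB n X) u

/-! ## the percolation bound -/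

noncomputable def hh (t : ℝ) : ℝ := t + t ^ 2 / 2

lemma hh_two {a b : ℝ} (ha : 0 ≤ a) (ha1 : a ≤ 1) (hb : 0 ≤ b) :
    hh (1 - (1 - a) * (1 - b)) ≤ hh a + hh b := by
  unfold hh
  have h1 : 0 ≤ 1 - (1 - a) * (1 - b) := by nlinarith
  have h2 : 1 - (1 - a) * (1 - b) ≤ a + b := by nlinarith
  have h3 : (1 - (1 - a) * (1 - b)) ^ 2 ≤ (a + b) ^ 2 := by gcongr
  nlinarith

lemma hh_three {a b c : ℝ} (ha : 0 ≤ a) (ha1 : a ≤ 1) (hb : 0 ≤ b) (hb1 : b ≤ 1) (hc : 0 ≤ c) :
    hh (1 - (1 - a) * (1 - b) * (1 - c)) ≤ hh a + hh b + hh c := by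
  have h1 := hh_two (a := 1 - (1 - a) * (1 - b)) (b := c) (by nlinarith) (by nlinarith) hc
  have h2 := hh_two ha ha1 hb
  have : 1 - (1 - (1 - (1 - a) * (1 - b))) * (1 - c) = 1 - (1 - a) * (1 - b) * (1 - c) := by ring
  rw [this] at h1
  linarith

lemma hh_split {X : ℝ} (hX : 1 ≤ X) (n : ℕ) (t : ℝ) :
    hh ((pp n X t + pp n X (t - 2 * X)) / 2)
      = (hh (pp n X t) + hh (pp n X (t - 2 * X))) / 2
        - (pp n X t ^ 2 + pp n X (t - 2 * X) ^ 2) / 8 := by
  rcases lt_or_ge t (2 * X) with h | h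
  · rw [pp_zero (by linarith) n (t - 2 * X) (Or.inl (by linarith))]
    unfold hh; ring
  · rw [pp_zero (by linarith) n t (Or.inr (by linarith))]
    unfold hh; ring

lemma hh_pp_succ {X : ℝ} (hX : 1 ≤ X) (n : ℕ) (u : ℝ) :
    hh (pp (n+1) X u) ≤ T X (fun v => hh (pp n X v)) u - (1/4) * T X (fun v => pp n X v ^ 2) u := by
  rw [pp_succ]
  have hb : ∀ t, 0 ≤ (pp n X t + pp n X (t - 2 * X)) / 2 ∧ (pp n X t + pp n X (t - 2 * X)) / 2 ≤ 1 := by
    intro t
    have := pp_nonneg n X t; have := pp_nonneg n X (t - 2 * X)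
    have := pp_le n X t; have := pp_le n X (t - 2 * X)
    constructor <;> linarith
  refine (hh_three (hb _).1 (hb _).2 (hb _).1 (hb _).2 (hb _).1).trans ?_
  rw [hh_split hX, hh_split hX, hh_split hX]
  unfold T
  apply le_of_eq
  ring

lemma pp_sq_ge {X : ℝ} (hX : 0 ≤ X) (n : ℕ) (l u : ℝ) :
    2 * l * pp n X u + (-l^2) * SS (1 + X) u ≤ pp n X u ^ 2 := by
  unfold SS
  split_ifs with h
  · nlinarith [sq_nonneg (pp n X u - l)]
  · rw [not_and_or, not_le, not_lt] at h
    rw [pp_zero hX n u h]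
    simp

lemma G_step {X : ℝ} (hX : 1 ≤ X) (k n : ℕ) (u : ℝ) {K : ℝ} (hK0 : 0 < K) (hK : PB K (SS (1 + X))) :
    (T X)^[k] (fun v => hh (pp (n+1) X v)) u ≤
      (T X)^[k+1] (fun v => hh (pp n X v)) u
        - 1 / (9 * K) * ((T X)^[k+1] (fun v => hh (pp n X v)) u) ^ 2 := by
  set G := (T X)^[k+1] (fun v => hh (pp n X v)) u with hG
  have hGn : 0 ≤ G := Tit_nonneg X (k+1) (fun v => by
    unfold hh; have := pp_nonneg n X v; positivity) u
  -- step 1
  have h1 : (T X)^[k] (fun v => hh (pp (n+1) X v)) u ≤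
      G - (1/4) * (T X)^[k+1] (fun v => pp n X v ^ 2) u := by
    have := Tit_mono X k (hh_pp_succ hX n) u
    refine this.trans (le_of_eq ?_)
    have e := congrFun (Tit_lin X k 1 (-(1/4)) (T X (fun v => hh (pp n X v)))
      (T X (fun v => pp n X v ^ 2))) u
    rw [hG, Function.iterate_succ_apply, Function.iterate_succ_apply]
    have e2 : (fun u => T X (fun v => hh (pp n X v)) u - (1/4) * T X (fun v => pp n X v ^ 2) u)
        = fun u => 1 * T X (fun v => hh (pp n X v)) u + (-(1/4)) * T X (fun v => pp n X v ^ 2) u := by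
      funext v; ring
    rw [e2, e]
    ring
  -- lower bound for the first moment
  have h2 : 2/3 * G ≤ (T X)^[k+1] (pp n X) u := by
    have e := congrFun (Tit_lin X (k+1) (2/3) 0 (fun v => hh (pp n X v)) (fun _ => 0)) u
    have h3 := Tit_mono X (k+1) (g := fun v => 2/3 * hh (pp n X v) + 0 * 0) (h := pp n X) (fun v => by
      unfold hh
      have := pp_nonneg n X v
      have := pp_le n X v
      nlinarith) u
    rw [e] at h3
    simpa [hG] using h3
  -- lower bound for the second moment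
  have h3 : ∀ l : ℝ, 2 * l * (T X)^[k+1] (pp n X) u + (-l^2) * (T X)^[k+1] (SS (1 + X)) u
      ≤ (T X)^[k+1] (fun v => pp n X v ^ 2) u := by
    intro l
    have e := congrFun (Tit_lin X (k+1) (2*l) (-l^2) (pp n X) (SS (1+X))) u
    have := Tit_mono X (k+1) (pp_sq_ge (X := X) (by linarith) n l) u
    rw [e] at this
    exact this
  have h4 : (T X)^[k+1] (SS (1 + X)) u ≤ K := PB_le (PB_Tit X (k+1) hK) u
  have h5 := h3 (2/3 * G / K)
  have hl : 0 ≤ 2/3 * G / K := by positivity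
  have h6 : 2 * (2/3 * G / K) * (2/3 * G) ≤ 2 * (2/3 * G / K) * (T X)^[k+1] (pp n X) u := by
    gcongr
  have h7 : (2/3 * G / K) ^ 2 * (T X)^[k+1] (SS (1 + X)) u ≤ (2/3 * G / K) ^ 2 * K := by
    gcongr
  have h8 : 2 * (2/3 * G / K) * (2/3 * G) - (2/3 * G / K) ^ 2 * K = 4/9 * G^2 / K := by
    field_simp; ring
  have h9 : 4/9 * G^2 / K ≤ (T X)^[k+1] (fun v => pp n X v ^ 2) u := by linarith
  have h10 : 1 / (9 * K) * G ^ 2 = 1/4 * (4/9 * G^2 / K) := by field_simp
  rw [h10]
  linarith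

lemma G_bound {X : ℝ} (hX : 1 ≤ X) {K : ℝ} (hK0 : 0 < K) (hK : PB K (SS (1 + X))) (n : ℕ) :
    ∀ (k : ℕ) (u : ℝ), 1 / (9 * K) * n * (T X)^[k] (fun v => hh (pp n X v)) u ≤ 1 := by
  induction n with
  | zero => intro k u; simp
  | succ n ih =>
    intro k u
    have h1 := G_step hX k n u hK0 hK
    have h2 := ih (k+1) u
    set G := (T X)^[k+1] (fun v => hh (pp n X v)) u with hG
    have hGn : 0 ≤ G := Tit_nonneg X (k+1) (fun v => by
      unfold hh; have := pp_nonneg n X v; positivity) u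
    have hc : 0 < 1 / (9 * K) := by positivity
    set c := 1 / (9 * K) with hcdef
    set τ := c * G with hτ
    have hτ0 : 0 ≤ τ := by positivity
    have h3 : c * ((T X)^[k] (fun v => hh (pp (n+1) X v)) u) ≤ τ - τ^2 := by
      calc c * ((T X)^[k] (fun v => hh (pp (n+1) X v)) u) ≤ c * (G - c * G^2) := by gcongr
        _ = τ - τ^2 := by rw [hτ]; ring
    have h4 : (n:ℝ) * τ ≤ 1 := by rw [hτ]; linarith
    have h5 : ((n:ℝ) + 1) * (τ - τ^2) ≤ 1 := by
      rcases le_or_gt τ 1 with h | h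
      · nlinarith [mul_nonneg (sub_nonneg.mpr h4) (sub_nonneg.mpr h)]
      · have : τ - τ^2 ≤ 0 := by nlinarith
        have : ((n:ℝ) + 1) * (τ - τ^2) ≤ 0 := mul_nonpos_of_nonneg_of_nonpos (by positivity) this
        linarith
    push_cast
    calc c * ((n:ℝ) + 1) * (T X)^[k] (fun v => hh (pp (n+1) X v)) u
        = ((n:ℝ) + 1) * (c * ((T X)^[k] (fun v => hh (pp (n+1) X v)) u)) := by ring
      _ ≤ ((n:ℝ) + 1) * (τ - τ^2) := by gcongr
      _ ≤ 1 := h5

/-- **Critical percolation bound.** -/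
lemma pp_bound {X : ℝ} (hX : 1 ≤ X) (hX2 : X ≤ 13) (n : ℕ) (u : ℝ) : (n:ℝ) * pp n X u ≤ 126 := by
  have hK : PB 14 (SS (1 + X)) := by
    intro A v
    refine (PB_SS A v).trans ?_
    have : ⌈1 + X⌉₊ ≤ 14 := Nat.ceil_le.mpr (by push_cast; linarith)
    exact_mod_cast this
  have h := G_bound hX (by norm_num) hK n 0 u
  simp only [Function.iterate_zero, id_eq] at h
  have h2 : pp n X u ≤ hh (pp n X u) := by unfold hh; nlinarith [sq_nonneg (pp n X u)]
  have h3 : (n:ℝ) * pp n X u ≤ n * hh (pp n X u) := by gcongr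
  linarith

end Pool.Agent.Q174.CD
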